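import Pool.Agent.Helper14.HQ.Plane

/-!
# Quadratic forms over a finite field: splitting off a plane
-/

set_option autoImplicit false

open Finset Matrix
open Pool.Agent.Helper81.HI

namespace Pool.Agent.Helper14.HQ

section Ring

variable {R : Type} [CommRing R] {a : ℕ}

/-- the bilinear form of a matrix -/
def bl (C : Matrix (Fin a) (Fin a) R) (v w : Fin a → R) : R := v ⬝ᵥ (C *ᵥ w)

/-- the quadratic form of a matrix -/
def qv (C : Matrix (Fin a) (Fin a) R) (y : Fin a → R) : R := bl C y y

lemma bl_eq (C : Matrix (Fin a) (Fin a) R) (v w : Fin a → R) :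
    bl C v w = ∑ i, ∑ j, C i j * (v i * w j) := by
  unfold bl
  simp only [dotProduct, mulVec, Finset.mul_sum]
  exact Finset.sum_congr rfl fun i _ => Finset.sum_congr rfl fun j _ => by ring

lemma qv_eq (C : Matrix (Fin a) (Fin a) R) (y : Fin a → R) :
    qv C y = ∑ i, ∑ j, C i j * (y i * y j) := bl_eq C y y

lemma bl_add_left (C : Matrix (Fin a) (Fin a) R) (v v' w : Fin a → R) :
    bl C (v + v') w = bl C v w + bl C v' w := by
  unfold bl; rw [add_dotProduct]

lemma bl_add_right (C : Matrix (Fin a) (Fin a) R) (v w w' : Fin a → R) :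
    bl C v (w + w') = bl C v w + bl C v w' := by
  unfold bl; rw [mulVec_add, dotProduct_add]

lemma bl_smul_left (C : Matrix (Fin a) (Fin a) R) (t : R) (v w : Fin a → R) :
    bl C (t • v) w = t * bl C v w := by
  unfold bl; rw [smul_dotProduct, smul_eq_mul]

lemma bl_smul_right (C : Matrix (Fin a) (Fin a) R) (t : R) (v w : Fin a → R) :
    bl C v (t • w) = t * bl C v w := by
  unfold bl; rw [mulVec_smul, dotProduct_smul, smul_eq_mul]

lemma bl_single (C : Matrix (Fin a) (Fin a) R) (i j : Fin a) :
    bl C (Pi.single i 1) (Pi.single j 1) = C i j := by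
  unfold bl
  rw [mulVec_single_one, single_one_dotProduct]
  rfl

lemma bl_mulVec (B C : Matrix (Fin a) (Fin a) R) (v w : Fin a → R) :
    bl C (B *ᵥ v) (B *ᵥ w) = bl (Bᵀ * C * B) v w := by
  unfold bl
  rw [← vecMul_transpose, ← dotProduct_mulVec, mulVec_mulVec, mulVec_mulVec, Matrix.mul_assoc]

lemma tr_apply (B C : Matrix (Fin a) (Fin a) R) (i j : Fin a) :
    (Bᵀ * C * B) i j = bl C (fun x => B x i) (fun x => B x j) := by
  rw [← bl_single (Bᵀ * C * B), ← bl_mulVec, mulVec_single_one, mulVec_single_one]
  rfl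

/-- the discriminant of a pair of vectors -/
def dsc (C : Matrix (Fin a) (Fin a) R) (v w : Fin a → R) : R :=
  (bl C v w + bl C w v) ^ 2 - 4 * (bl C v v * bl C w w)

/-- the middle coefficient of the first plane -/
def pB (C : Matrix (Fin (a + 2)) (Fin (a + 2)) R) : R := C 0 1 + C 1 0

/-- the discriminant of the first plane -/
def dc (C : Matrix (Fin (a + 2)) (Fin (a + 2)) R) : R := pB C ^ 2 - 4 * (C 0 0 * C 1 1)

/-- first linear form -/
def l1 (C : Matrix (Fin (a + 2)) (Fin (a + 2)) R) (j : Fin a) : R :=
  C 0 j.succ.succ + C j.succ.succ 0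

/-- second linear form -/
def l2 (C : Matrix (Fin (a + 2)) (Fin (a + 2)) R) (j : Fin a) : R :=
  C 1 j.succ.succ + C j.succ.succ 1

/-- the complement of the first plane, multiplied by the discriminant -/
def red (C : Matrix (Fin (a + 2)) (Fin (a + 2)) R) : Matrix (Fin a) (Fin a) R :=
  Matrix.of fun i j => dc C * C i.succ.succ j.succ.succ +
    (C 1 1 * (l1 C i * l1 C j) - pB C * (l1 C i * l2 C j) + C 0 0 * (l2 C i * l2 C j))

lemma dc_tr (B C : Matrix (Fin (a + 2)) (Fin (a + 2)) R) :
    dc (Bᵀ * C * B) = dsc C (fun x => B x 0) (fun x => B x 1) := by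
  unfold dc dsc pB
  rw [tr_apply, tr_apply, tr_apply, tr_apply]

variable {R' : Type} [CommRing R'] (f : R →+* R')

lemma pB_map (C : Matrix (Fin (a + 2)) (Fin (a + 2)) R) : pB (C.map f) = f (pB C) := by
  simp [pB]

lemma dc_map (C : Matrix (Fin (a + 2)) (Fin (a + 2)) R) : dc (C.map f) = f (dc C) := by
  have h4 : f 4 = 4 := map_ofNat f 4
  simp [dc, pB, h4]

lemma red_map (C : Matrix (Fin (a + 2)) (Fin (a + 2)) R) : red (C.map f) = (red C).map f := by
  have h4 : f 4 = 4 := map_ofNat f 4
  ext i j
  simp [red, dc, pB, l1, l2, h4]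

lemma qv_cons (C : Matrix (Fin (a + 2)) (Fin (a + 2)) R) (u v : R) (y : Fin a → R) :
    qv C (Fin.cons u (Fin.cons v y)) = C 0 0 * u ^ 2 + pB C * (u * v) + C 1 1 * v ^ 2 +
      u * (∑ j, l1 C j * y j) + v * (∑ j, l2 C j * y j) +
      ∑ i, ∑ j, C i.succ.succ j.succ.succ * (y i * y j) := by
  have hc1 : (Fin.cons u (Fin.cons v y) : Fin (a + 2) → R) 1 = v := rfl
  rw [qv_eq]
  have h1 : ∀ i : Fin (a + 2), ∑ j, C i j * ((Fin.cons u (Fin.cons v y) : Fin (a + 2) → R) i *
      (Fin.cons u (Fin.cons v y) : Fin (a + 2) → R) j) =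
      (Fin.cons u (Fin.cons v y) : Fin (a + 2) → R) i * (C i 0 * u + C i 1 * v +
        ∑ j : Fin a, C i j.succ.succ * y j) := by
    intro i
    rw [Fin.sum_univ_succ, Fin.sum_univ_succ]
    simp only [Fin.cons_zero, Fin.cons_succ, Fin.succ_zero_eq_one, hc1]
    rw [mul_add, mul_add, Finset.mul_sum, ← add_assoc]
    congr 1
    · ring
    · exact Finset.sum_congr rfl fun j _ => by ring
  rw [Finset.sum_congr rfl fun i _ => h1 i, Fin.sum_univ_succ, Fin.sum_univ_succ]
  simp only [Fin.cons_zero, Fin.cons_succ, Fin.succ_zero_eq_one, hc1]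
  have h2 : ∑ i : Fin a, y i * (C i.succ.succ 0 * u + C i.succ.succ 1 * v +
      ∑ j : Fin a, C i.succ.succ j.succ.succ * y j) =
      u * (∑ i : Fin a, C i.succ.succ 0 * y i) + v * (∑ i : Fin a, C i.succ.succ 1 * y i) +
      ∑ i : Fin a, ∑ j : Fin a, C i.succ.succ j.succ.succ * (y i * y j) := by
    rw [Finset.mul_sum, Finset.mul_sum, ← Finset.sum_add_distrib, ← Finset.sum_add_distrib]
    refine Finset.sum_congr rfl fun i _ => ?_
    rw [mul_add, Finset.mul_sum]
    congr 1
    · ring
    · exact Finset.sum_congr rfl fun j _ => by ring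
  rw [h2]
  have h3 : ∑ j, l1 C j * y j = ∑ j : Fin a, C 0 j.succ.succ * y j +
      ∑ i : Fin a, C i.succ.succ 0 * y i := by
    rw [← Finset.sum_add_distrib]
    exact Finset.sum_congr rfl fun j _ => by unfold l1; ring
  have h4 : ∑ j, l2 C j * y j = ∑ j : Fin a, C 1 j.succ.succ * y j +
      ∑ i : Fin a, C i.succ.succ 1 * y i := by
    rw [← Finset.sum_add_distrib]
    exact Finset.sum_congr rfl fun j _ => by unfold l2; ring
  rw [h3, h4]
  unfold pB
  ring

lemma qv_red (C : Matrix (Fin (a + 2)) (Fin (a + 2)) R) (y : Fin a → R) :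
    qv (red C) y = dc C * (∑ i, ∑ j, C i.succ.succ j.succ.succ * (y i * y j)) +
      (C 1 1 * (∑ j, l1 C j * y j) ^ 2 - pB C * ((∑ j, l1 C j * y j) * (∑ j, l2 C j * y j)) +
        C 0 0 * (∑ j, l2 C j * y j) ^ 2) := by
  rw [qv_eq, sq, sq, Finset.sum_mul_sum, Finset.sum_mul_sum, Finset.sum_mul_sum]
  simp only [Finset.mul_sum]
  rw [← Finset.sum_sub_distrib, ← Finset.sum_add_distrib, ← Finset.sum_add_distrib]
  refine Finset.sum_congr rfl fun i _ => ?_
  rw [← Finset.sum_sub_distrib, ← Finset.sum_add_distrib, ← Finset.sum_add_distrib]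
  refine Finset.sum_congr rfl fun j _ => ?_
  simp only [red, Matrix.of_apply]
  ring

/-- an alternating form vanishes -/
lemma qv_alt (C : Matrix (Fin a) (Fin a) R) (y : Fin a → R)
    (h0 : ∀ j, C j j * (y j * y j) = 0)
    (h : ∀ j l, j ≠ l → (C j l + C l j) * (y j * y l) = 0) : qv C y = 0 := by
  rw [qv_eq, ← Finset.sum_product']
  refine Finset.sum_involution (fun p _ => (p.2, p.1)) ?_ ?_ (fun p _ => by simp) (fun p _ => rfl)
  · intro p _
    by_cases hp : p.1 = p.2
    · rw [← hp, h0, add_zero]
    · linear_combination h p.1 p.2 hp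
  · intro p _ hp he
    apply hp
    have : p.2 = p.1 := congrArg Prod.fst he
    rw [this]
    exact h0 _

end Ring

section Field

variable {k : Type} [Field k] {a : ℕ}

/-- the number of zeros of the form -/
noncomputable def NQ (C : Matrix (Fin a) (Fin a) k) : ℕ := Nat.card {y : Fin a → k // qv C y = 0}

lemma NQ_tr (B B' C : Matrix (Fin a) (Fin a) k) (h : B * B' = 1) (h' : B' * B = 1) :
    NQ (Bᵀ * C * B) = NQ C := by
  unfold NQ
  exact Nat.card_congr
    { toFun := fun y => ⟨B *ᵥ y.1, by
        have := y.2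
        unfold qv at this ⊢
        rw [bl_mulVec]; exact this⟩
      invFun := fun z => ⟨B' *ᵥ z.1, by
        have := z.2
        unfold qv at this ⊢
        rw [← bl_mulVec, mulVec_mulVec, h, one_mulVec]; exact this⟩
      left_inv := fun y => by
        apply Subtype.ext
        show B' *ᵥ (B *ᵥ y.1) = y.1
        rw [mulVec_mulVec, h', one_mulVec]
      right_inv := fun z => by
        apply Subtype.ext
        show B *ᵥ (B' *ᵥ z.1) = z.1
        rw [mulVec_mulVec, h, one_mulVec] }

lemma shift_key {p b r D L1 L2 Q q : k} (hD : D ≠ 0) (h : D = b ^ 2 - 4 * (p * r))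
    (hq : q = D * Q + (r * L1 ^ 2 - b * (L1 * L2) + p * L2 ^ 2)) (u v : k) :
    p * (u - (2 * r * L1 - b * L2) / D) ^ 2 +
      b * ((u - (2 * r * L1 - b * L2) / D) * (v - (2 * p * L2 - b * L1) / D)) +
      r * (v - (2 * p * L2 - b * L1) / D) ^ 2 + q / D =
      p * u ^ 2 + b * (u * v) + r * v ^ 2 + u * L1 + v * L2 + Q := by
  obtain ⟨x, hx⟩ : ∃ x, x = (2 * r * L1 - b * L2) / D := ⟨_, rfl⟩
  obtain ⟨y, hy⟩ : ∃ y, y = (2 * p * L2 - b * L1) / D := ⟨_, rfl⟩
  obtain ⟨s, hs⟩ : ∃ s, s = q / D := ⟨_, rfl⟩
  rw [← hx, ← hy, ← hs]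
  have hx' : D * x = 2 * r * L1 - b * L2 := by rw [hx]; field_simp
  have hy' : D * y = 2 * p * L2 - b * L1 := by rw [hy]; field_simp
  have hs' : D * s = q := by rw [hs]; field_simp
  refine mul_left_cancel₀ (pow_ne_zero 2 hD) ?_
  have e1 : D * (2 * p * x + b * y) = - L1 * D := by
    linear_combination (2 * p) * hx' + b * hy' + L1 * h
  have e2 : D * (b * x + 2 * r * y) = - L2 * D := by
    linear_combination b * hx' + (2 * r) * hy' + L2 * h
  have e3 : D ^ 2 * (p * x ^ 2 + b * (x * y) + r * y ^ 2) =
      - D * (r * L1 ^ 2 - b * (L1 * L2) + p * L2 ^ 2) := by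
    linear_combination (p * (D * x + 2 * r * L1 - b * L2) + b * D * y) * hx' +
      (r * (D * y + 2 * p * L2 - b * L1) + b * (2 * r * L1 - b * L2)) * hy' +
      (r * L1 ^ 2 - b * (L1 * L2) + p * L2 ^ 2) * h
  linear_combination (-u * D) * e1 + (-v * D) * e2 + e3 + D * hs' + D * hq

variable [Fintype k]

/-- splitting off a nondegenerate plane -/
theorem NQ_plane (C : Matrix (Fin (a + 2)) (Fin (a + 2)) k) (h : dc C ≠ 0) :
    (NQ C : ℤ) = ((Nat.card k : ℤ) - eps (pB C) (C 0 0 * C 1 1)) * (Nat.card k : ℤ) ^ a +
      Nat.card k * eps (pB C) (C 0 0 * C 1 1) * NQ (red C) := by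
  classical
  have e : {y : Fin (a + 2) → k // qv C y = 0} ≃
      {p : (Fin a → k) × (k × k) // qv C (Fin.cons p.2.1 (Fin.cons p.2.2 p.1)) = 0} :=
    { toFun := fun y => ⟨(fun i => y.1 i.succ.succ, (y.1 0, y.1 1)), by
        have h1 : (Fin.cons (y.1 0) (Fin.cons (y.1 1) fun i => y.1 i.succ.succ) :
            Fin (a + 2) → k) = y.1 := by
          funext i
          refine Fin.cases ?_ (fun j => ?_) i
          · rfl
          · refine Fin.cases ?_ (fun l => ?_) j
            · rfl
            · rfl
        show qv C (Fin.cons (y.1 0) (Fin.cons (y.1 1) fun i => y.1 i.succ.succ)) = 0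
        rw [h1]; exact y.2⟩
      invFun := fun p => ⟨Fin.cons p.1.2.1 (Fin.cons p.1.2.2 p.1.1), p.2⟩
      left_inv := fun y => by
        apply Subtype.ext
        funext i
        refine Fin.cases ?_ (fun j => ?_) i
        · rfl
        · refine Fin.cases ?_ (fun l => ?_) j
          · rfl
          · rfl
      right_inv := fun p => rfl }
  have h1 : (NQ C : ℤ) = ∑ y : Fin a → k,
      ((Nat.card k : ℤ) - eps (pB C) (C 0 0 * C 1 1) +
        if qv (red C) y = 0 then (Nat.card k : ℤ) * eps (pB C) (C 0 0 * C 1 1) else 0) := by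
    unfold NQ
    rw [Nat.card_congr e, card_fib (fun (y : Fin a → k) (p : k × k) =>
      qv C (Fin.cons p.1 (Fin.cons p.2 y)) = 0), Nat.cast_sum]
    refine Finset.sum_congr rfl fun y _ => ?_
    have h2 : Nat.card {p : k × k // qv C (Fin.cons p.1 (Fin.cons p.2 y)) = 0} =
        rep (C 0 0) (pB C) (C 1 1) (qv (red C) y / dc C) := by
      unfold rep
      set L1 := ∑ j, l1 C j * y j with hL1
      set L2 := ∑ j, l2 C j * y j with hL2
      set Q := ∑ i, ∑ j, C i.succ.succ j.succ.succ * (y i * y j) with hQ
      have hr := qv_red C y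
      rw [← hL1, ← hL2, ← hQ] at hr
      have hdc : dc C = pB C ^ 2 - 4 * (C 0 0 * C 1 1) := rfl
      have key : ∀ u v : k, C 0 0 * (u - (2 * C 1 1 * L1 - pB C * L2) / dc C) ^ 2 +
          pB C * ((u - (2 * C 1 1 * L1 - pB C * L2) / dc C) *
            (v - (2 * C 0 0 * L2 - pB C * L1) / dc C)) +
          C 1 1 * (v - (2 * C 0 0 * L2 - pB C * L1) / dc C) ^ 2 + qv (red C) y / dc C =
          qv C (Fin.cons u (Fin.cons v y)) := by
        intro u v
        rw [qv_cons, ← hL1, ← hL2, ← hQ]
        exact shift_key h hdc hr u v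
      exact Nat.card_congr
        { toFun := fun p => ⟨(p.1.1 - (2 * C 1 1 * L1 - pB C * L2) / dc C,
            p.1.2 - (2 * C 0 0 * L2 - pB C * L1) / dc C), by
              rw [key]; exact p.2⟩
          invFun := fun p => ⟨(p.1.1 + (2 * C 1 1 * L1 - pB C * L2) / dc C,
            p.1.2 + (2 * C 0 0 * L2 - pB C * L1) / dc C), by
              rw [← key, add_sub_cancel_right, add_sub_cancel_right]; exact p.2⟩
          left_inv := fun p => by
            apply Subtype.ext
            apply Prod.ext
            · exact sub_add_cancel _ _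
            · exact sub_add_cancel _ _
          right_inv := fun p => by
            apply Subtype.ext
            apply Prod.ext
            · exact add_sub_cancel_right _ _
            · exact add_sub_cancel_right _ _ }
    rw [h2, rep_val h]
    congr 1
    by_cases hz : qv (red C) y = 0
    · rw [if_pos hz, if_pos (by rw [hz, zero_div])]
    · rw [if_neg hz, if_neg (div_ne_zero hz h)]
  rw [h1, Finset.sum_add_distrib, Finset.sum_const, Finset.sum_ite, Finset.sum_const_zero,
    add_zero, Finset.sum_const, nsmul_eq_mul, nsmul_eq_mul]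
  have h3 : (Finset.card (univ : Finset (Fin a → k)) : ℤ) = (Nat.card k : ℤ) ^ a := by
    rw [Finset.card_univ, ← Nat.card_eq_fintype_card, Nat.card_fun]
    simp
  have h4 : NQ (red C) = (univ.filter fun y : Fin a → k => qv (red C) y = 0).card := by
    unfold NQ
    rw [Nat.card_eq_fintype_card, Fintype.card_subtype]
  rw [h3, h4]
  ring

/-- a quadratic polynomial with vanishing discriminant has exactly one root -/
lemma card_root_one {c l r : k} (hc : c ≠ 0) (h : l ^ 2 - 4 * (c * r) = 0) :
    Nat.card {t : k // c * t ^ 2 + l * t + r = 0} = 1 := by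
  rw [Nat.card_eq_one_iff_unique]
  by_cases h2 : (2 : k) = 0
  · have hl : l = 0 := by
      have h3 : l ^ 2 = 0 := by linear_combination h + 2 * (c * r) * h2
      exact pow_eq_zero_iff two_ne_zero |>.mp h3
    subst hl
    have hchar : ringChar k = 2 := by
      have h3 : ((2 : ℕ) : k) = 0 := by exact_mod_cast h2
      have h4 := (ringChar.spec k 2).mp h3
      rcases (Nat.dvd_prime Nat.prime_two).mp h4 with h5 | h5
      · exact absurd h5 (CharP.ringChar_ne_one)
      · exact h5
    constructor
    · constructor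
      intro x y
      apply Subtype.ext
      have h3 : c * (x.1 - y.1) ^ 2 = 0 := by
        linear_combination x.2 - y.2 - (x.1 - y.1) * y.1 * c * h2
      exact sub_eq_zero.mp (pow_eq_zero_iff two_ne_zero |>.mp
        ((mul_eq_zero.mp h3).resolve_left hc))
    · obtain ⟨t, ht⟩ := FiniteField.isSquare_of_char_two hchar (r / c)
      refine ⟨t, ?_⟩
      have h3 : c * (t * t) = r := by rw [← ht]; field_simp
      linear_combination h3 + r * h2
  · constructor
    · constructor
      have key : ∀ z : {t : k // c * t ^ 2 + l * t + r = 0}, 2 * c * z.1 + l = 0 := by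
        intro z
        have h3 : (2 * c * z.1 + l) ^ 2 = 0 := by linear_combination 4 * c * z.2 + h
        exact pow_eq_zero_iff two_ne_zero |>.mp h3
      intro x y
      apply Subtype.ext
      have h3 : (2 * c) * (x.1 - y.1) = 0 := by linear_combination key x - key y
      exact sub_eq_zero.mp ((mul_eq_zero.mp h3).resolve_left (mul_ne_zero h2 hc))
    · refine ⟨-l / (2 * c), ?_⟩
      field_simp
      linear_combination -h

/-- all the planes are degenerate -/
theorem NQ_deg (C : Matrix (Fin (a + 1)) (Fin (a + 1)) k) [Decidable (∀ i, C i i = 0)]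
    (h : ∀ i j l, i ≠ j → dsc C (Pi.single i 1)
      (Pi.single j 1 + if l = i ∨ l = j then 0 else Pi.single l 1) = 0) :
    (NQ C : ℤ) = (Nat.card k : ℤ) ^ a +
      if ∀ i, C i i = 0 then (Nat.card k : ℤ) ^ (a + 1) - (Nat.card k : ℤ) ^ a else 0 := by
  classical
  have h1 : ∀ i j, i ≠ j → (C i j + C j i) ^ 2 - 4 * (C i i * C j j) = 0 := by
    intro i j hij
    have := h i j i hij
    rw [if_pos (Or.inl rfl), add_zero] at this
    unfold dsc at this
    rw [bl_single, bl_single, bl_single, bl_single] at this
    exact this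
  have h2 : ∀ i j l, i ≠ j → l ≠ i → l ≠ j → ((C i j + C j i) + (C i l + C l i)) ^ 2 -
      4 * (C i i * (C j j + C l l + (C j l + C l j))) = 0 := by
    intro i j l hij hli hlj
    have := h i j l hij
    rw [if_neg (by tauto)] at this
    unfold dsc at this
    simp only [bl_add_left, bl_add_right, bl_single] at this
    linear_combination this
  split_ifs with h0
  · -- the form vanishes
    have h3 : ∀ y, qv C y = 0 := by
      intro y
      refine qv_alt C y (fun j => by rw [h0, zero_mul]) fun j l hjl => ?_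
      have h4 := h1 j l hjl
      rw [h0 j, zero_mul, mul_zero, sub_zero] at h4
      rw [pow_eq_zero_iff two_ne_zero |>.mp h4, zero_mul]
    have h4 : NQ C = Nat.card (Fin (a + 1) → k) := by
      unfold NQ
      exact Nat.card_congr (Equiv.subtypeUnivEquiv h3)
    rw [h4, Nat.card_fun]
    simp
  · push Not at h0
    obtain ⟨i, hi⟩ := h0
    rw [add_zero]
    have e : {y : Fin (a + 1) → k // qv C y = 0} ≃
        {p : (Fin a → k) × k // qv C (i.insertNth p.2 p.1) = 0} :=
      { toFun := fun y => ⟨(i.removeNth y.1, y.1 i), by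
          rw [Fin.insertNth_self_removeNth]; exact y.2⟩
        invFun := fun p => ⟨i.insertNth p.1.2 p.1.1, p.2⟩
        left_inv := fun y => by
          apply Subtype.ext
          exact Fin.insertNth_self_removeNth i y.1
        right_inv := fun p => by
          apply Subtype.ext
          apply Prod.ext
          · exact Fin.removeNth_insertNth (α := fun _ => k) i p.1.2 p.1.1
          · exact Fin.insertNth_apply_same (α := fun _ => k) i p.1.2 p.1.1 }
    unfold NQ
    rw [Nat.card_congr e, card_fib (fun (y : Fin a → k) (t : k) => qv C (i.insertNth t y) = 0)]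
    have h3 : ∀ y : Fin a → k, Nat.card {t : k // qv C (i.insertNth t y) = 0} = 1 := by
      intro y
      set z : Fin (a + 1) → k := i.insertNth 0 y with hz
      have hz0 : z i = 0 := Fin.insertNth_apply_same (α := fun _ => k) i 0 y
      have h4 : ∀ t : k, i.insertNth t y = t • (Pi.single i 1 : Fin (a + 1) → k) + z := by
        intro t
        funext j
        rcases eq_or_ne j i with rfl | hj
        · simp [hz0]
        · obtain ⟨l, rfl⟩ := Fin.exists_succAbove_eq hj
          simp [hz]
      have h5 : ∀ t : k, qv C (i.insertNth t y) = C i i * t ^ 2 +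
          (bl C (Pi.single i 1) z + bl C z (Pi.single i 1)) * t + qv C z := by
        intro t
        rw [h4]
        unfold qv
        simp only [bl_add_left, bl_add_right, bl_smul_left, bl_smul_right, bl_single]
        ring
      have h6 : (bl C (Pi.single i 1) z + bl C z (Pi.single i 1)) ^ 2 -
          4 * (C i i * qv C z) = 0 := by
        set M : Matrix (Fin (a + 1)) (Fin (a + 1)) k := Matrix.of fun j l =>
          (C i j + C j i) * (C i l + C l i) - 4 * (C i i * C j l) with hM
        have h7 : qv M z = (bl C (Pi.single i 1) z + bl C z (Pi.single i 1)) ^ 2 -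
          4 * (C i i * qv C z) := by
          have h8 : bl C (Pi.single i 1) z = ∑ j, C i j * z j := by
            unfold bl
            rw [single_one_dotProduct]
            rfl
          have h9 : bl C z (Pi.single i 1) = ∑ j, C j i * z j := by
            unfold bl
            rw [mulVec_single_one]
            simp only [dotProduct, Matrix.col_apply]
            exact Finset.sum_congr rfl fun j _ => mul_comm _ _
          rw [h8, h9, ← Finset.sum_add_distrib, sq, Finset.sum_mul_sum, qv_eq, qv_eq]
          simp only [Finset.mul_sum]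
          rw [← Finset.sum_sub_distrib]
          refine Finset.sum_congr rfl fun j _ => ?_
          rw [← Finset.sum_sub_distrib]
          refine Finset.sum_congr rfl fun l _ => ?_
          rw [hM, Matrix.of_apply]
          ring
        rw [← h7]
        refine qv_alt M z (fun j => ?_) fun j l hjl => ?_
        · by_cases hj : j = i
          · rw [hj, hz0]; ring
          · have := h1 i j (Ne.symm hj)
            rw [hM, Matrix.of_apply]
            linear_combination (z j * z j) * this
        · by_cases hj : j = i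
          · rw [hj, hz0]; ring
          · by_cases hl : l = i
            · rw [hl, hz0]; ring
            · have e1 := h1 i j (Ne.symm hj)
              have e2 := h1 i l (Ne.symm hl)
              have e3 := h2 i j l (Ne.symm hj) hl (Ne.symm hjl)
              rw [hM, Matrix.of_apply, Matrix.of_apply]
              linear_combination (z j * z l) * (e3 - e1 - e2)
      refine Eq.trans ?_ (card_root_one hi h6)
      exact Nat.card_congr (Equiv.subtypeEquivRight fun t => by rw [h5])
    rw [Finset.sum_congr rfl fun y _ => h3 y, Finset.sum_const, smul_eq_mul, mul_one,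
      Finset.card_univ, ← Nat.card_eq_fintype_card, Nat.card_fun]
    simp

end Field

end Pool.Agent.Helper14.HQ
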