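import Pool.Agent.Helper81.HI.Lin
import Pool.Agent.Helper14.HQ.Form

/-!
# Families of quadratic forms
-/

set_option autoImplicit false

open Finset MvPolynomial Matrix
open Pool.Agent.Helper29.Zeta Pool.Agent.Helper50.KR
open Pool.Agent.Helper81.HI

namespace Pool.Agent.Helper14.HQ

/-! ### Unimodular matrices -/

lemma exists_perm {a : ℕ} {i j : Fin (a + 2)} (h : i ≠ j) :
    ∃ σ : Equiv.Perm (Fin (a + 2)), σ 0 = i ∧ σ 1 = j := by
  refine ⟨Equiv.swap (Equiv.swap 0 i 1) j * Equiv.swap 0 i, ?_, ?_⟩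
  · rw [Equiv.Perm.mul_apply, Equiv.swap_apply_left]
    refine Equiv.swap_apply_of_ne_of_ne ?_ h
    intro h1
    have h2 : (Equiv.swap 0 i) 0 = (Equiv.swap 0 i) 1 := by rw [Equiv.swap_apply_left]; exact h1
    exact absurd ((Equiv.swap 0 i).injective h2) (by simp)
  · rw [Equiv.Perm.mul_apply, Equiv.swap_apply_left]

/-- the second vector of a plane -/
def sv {R : Type} [CommRing R] {a : ℕ} (i j l : Fin a) : Fin a → R :=
  Pi.single j 1 + if l = i ∨ l = j then 0 else Pi.single l 1

lemma exists_unim {a : ℕ} {i j : Fin (a + 2)} (l : Fin (a + 2)) (h : i ≠ j) :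
    ∃ B B' : Matrix (Fin (a + 2)) (Fin (a + 2)) ℤ, B * B' = 1 ∧ B' * B = 1 ∧
      (fun x => B x 0) = Pi.single i 1 ∧ (fun x => B x 1) = sv i j l := by
  obtain ⟨σ, h0, h1⟩ := exists_perm h
  obtain ⟨T, T', hT, hT', hi, hj⟩ : ∃ T T' : Matrix (Fin (a + 2)) (Fin (a + 2)) ℤ,
      T * T' = 1 ∧ T' * T = 1 ∧ (fun x => T x i) = Pi.single i 1 ∧
        (fun x => T x j) = sv i j l := by
    by_cases hl : l = i ∨ l = j
    · refine ⟨1, 1, by simp, by simp, ?_, ?_⟩
      · funext x
        rw [Matrix.one_apply, Pi.single_apply]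
      · funext x
        unfold sv
        rw [if_pos hl, add_zero, Matrix.one_apply, Pi.single_apply]
    · push Not at hl
      refine ⟨transvection l j 1, transvection l j (-1), ?_, ?_, ?_, ?_⟩
      · rw [transvection_mul_transvection_same l j hl.2 1 (-1)]
        simp
      · rw [transvection_mul_transvection_same l j hl.2 (-1) 1]
        simp
      · funext x
        rw [transvection, Matrix.add_apply, Matrix.one_apply, Matrix.single_apply, Pi.single_apply,
          if_neg (show ¬ (l = x ∧ j = i) from fun hc => h hc.2.symm), add_zero]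
      · funext x
        unfold sv
        rw [if_neg (show ¬ (l = i ∨ l = j) by tauto), transvection, Matrix.add_apply,
          Matrix.one_apply, Matrix.single_apply, Pi.add_apply, Pi.single_apply, Pi.single_apply]
        congr 1
        by_cases hx : x = l
        · rw [if_pos hx, if_pos ⟨hx.symm, rfl⟩]
        · rw [if_neg hx, if_neg (fun hc => hx hc.1.symm)]
  refine ⟨T.submatrix id σ, T'.submatrix σ id, ?_, ?_, ?_, ?_⟩
  · rw [Matrix.submatrix_mul_equiv, hT]
    exact Matrix.submatrix_one_equiv (Equiv.refl _)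
  · have := Matrix.submatrix_mul_equiv T' T σ (Equiv.refl _) σ
    rw [hT'] at this
    rw [Matrix.submatrix_one_equiv] at this
    exact this
  · show (fun x => T x (σ 0)) = _
    rw [h0]; exact hi
  · show (fun x => T x (σ 1)) = _
    rw [h1]; exact hj

/-! ### Twisted counts -/

section

variable {m a : ℕ}

/-- a locally closed condition on a point of affine space -/
def Loc (S : Finset (MvPolynomial (Fin m) ℤ)) (g : MvPolynomial (Fin m) ℤ) {n : ℕ}
    (x : Fin m → FF n) : Prop := (∀ f ∈ S, aeval x f = 0) ∧ aeval x g ≠ 0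

open Classical in
/-- the sum of the signs over a locally closed set -/
noncomputable def T0 (S : Finset (MvPolynomial (Fin m) ℤ)) (g b c : MvPolynomial (Fin m) ℤ)
    (n : ℕ) : ℤ :=
  ∑ x : Fin m → FF n, if Loc S g x then eps (aeval x b) (aeval x c) else 0

/-- the specialised matrix -/
noncomputable def sp {n : ℕ} (x : Fin m → FF n) (C : Matrix (Fin a) (Fin a) (MvPolynomial (Fin m) ℤ)) :
    Matrix (Fin a) (Fin a) (FF n) := C.map (aeval x : MvPolynomial (Fin m) ℤ →ₐ[ℤ] FF n).toRingHom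

open Classical in
/-- the sum of the signs times the number of zeros over a locally closed set -/
noncomputable def TT (S : Finset (MvPolynomial (Fin m) ℤ)) (g b c : MvPolynomial (Fin m) ℤ)
    (C : Matrix (Fin a) (Fin a) (MvPolynomial (Fin m) ℤ)) (n : ℕ) : ℤ :=
  ∑ x : Fin m → FF n, if Loc S g x then eps (aeval x b) (aeval x c) * NQ (sp x C) else 0

lemma TT_split (S : Finset (MvPolynomial (Fin m) ℤ)) [DecidableEq (MvPolynomial (Fin m) ℤ)]
    (g b c d : MvPolynomial (Fin m) ℤ)
    (C : Matrix (Fin a) (Fin a) (MvPolynomial (Fin m) ℤ)) (n : ℕ) :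
    TT S g b c C n = TT (insert d S) g b c C n + TT S (g * d) b c C n := by
  unfold TT
  rw [← Finset.sum_add_distrib]
  refine Finset.sum_congr rfl fun x _ => ?_
  by_cases h : Loc S g x
  · by_cases hd : aeval x d = 0
    · have h1 : Loc (insert d S) g x := by
        refine ⟨fun f hf => ?_, h.2⟩
        rcases Finset.mem_insert.mp hf with rfl | hf
        · exact hd
        · exact h.1 f hf
      have h2 : ¬ Loc S (g * d) x := fun h2 => h2.2 (by rw [map_mul, hd, mul_zero])
      rw [if_pos h, if_pos h1, if_neg h2, add_zero]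
    · have h1 : ¬ Loc (insert d S) g x := fun h1 => hd (h1.1 d (Finset.mem_insert_self _ _))
      have h2 : Loc S (g * d) x := ⟨h.1, by rw [map_mul]; exact mul_ne_zero h.2 hd⟩
      rw [if_pos h, if_neg h1, if_pos h2, zero_add]
  · have h1 : ¬ Loc (insert d S) g x := fun h1 =>
      h ⟨fun f hf => h1.1 f (Finset.mem_insert_of_mem hf), h1.2⟩
    have h2 : ¬ Loc S (g * d) x := fun h2 => h ⟨h2.1, fun h3 => h2.2 (by
      rw [map_mul, h3, zero_mul])⟩
    rw [if_neg h, if_neg h1, if_neg h2, add_zero]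

lemma dc_sp {n : ℕ} (x : Fin m → FF n)
    (C : Matrix (Fin (a + 2)) (Fin (a + 2)) (MvPolynomial (Fin m) ℤ)) :
    dc (sp x C) = aeval x (dc C) := dc_map _ C

lemma pB_sp {n : ℕ} (x : Fin m → FF n)
    (C : Matrix (Fin (a + 2)) (Fin (a + 2)) (MvPolynomial (Fin m) ℤ)) :
    pB (sp x C) = aeval x (pB C) := pB_map _ C

lemma red_sp {n : ℕ} (x : Fin m → FF n)
    (C : Matrix (Fin (a + 2)) (Fin (a + 2)) (MvPolynomial (Fin m) ℤ)) :
    red (sp x C) = sp x (red C) := red_map _ C

lemma sp_apply {n : ℕ} (x : Fin m → FF n)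
    (C : Matrix (Fin a) (Fin a) (MvPolynomial (Fin m) ℤ)) (i j : Fin a) :
    sp x C i j = aeval x (C i j) := rfl

/-- splitting off the first plane -/
lemma TT_plane (S : Finset (MvPolynomial (Fin m) ℤ)) (g b c : MvPolynomial (Fin m) ℤ)
    (C : Matrix (Fin (a + 2)) (Fin (a + 2)) (MvPolynomial (Fin m) ℤ))
    (hg : (b ^ 2 - 4 * c) ∣ g) (hd : dc C ∣ g) {n : ℕ} (hn : IsPrimePow n) :
    TT S g b c C n = (n : ℤ) ^ (a + 1) * T0 S g b c n -
      (n : ℤ) ^ a * T0 S g (b * pB C)
        (b ^ 2 * (C 0 0 * C 1 1) + pB C ^ 2 * c - 4 * c * (C 0 0 * C 1 1)) n +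
      n * TT S g (b * pB C)
        (b ^ 2 * (C 0 0 * C 1 1) + pB C ^ 2 * c - 4 * c * (C 0 0 * C 1 1)) (red C) n := by
  unfold TT T0
  rw [Finset.mul_sum, Finset.mul_sum, Finset.mul_sum, ← Finset.sum_sub_distrib,
    ← Finset.sum_add_distrib]
  refine Finset.sum_congr rfl fun x _ => ?_
  by_cases h : Loc S g x
  · simp only [if_pos h]
    have hgx : ∀ u : MvPolynomial (Fin m) ℤ, u ∣ g → aeval x u ≠ 0 := by
      rintro u ⟨v, rfl⟩ h0
      exact h.2 (by rw [map_mul, h0, zero_mul])
    have h1 : dc (sp x C) ≠ 0 := by rw [dc_sp]; exact hgx _ hd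
    have h2 : (aeval x b) ^ 2 - 4 * (aeval x c) ≠ 0 := by
      have := hgx _ hg
      rw [map_sub, map_pow, map_mul, map_ofNat] at this
      exact this
    have h3 := NQ_plane (sp x C) h1
    rw [card_FF hn] at h3
    rw [h3, pB_sp, red_sp, sp_apply, sp_apply]
    have h4 : dc (sp x C) = (aeval x (pB C)) ^ 2 - 4 * (aeval x (C 0 0) * aeval x (C 1 1)) := by
      unfold dc
      rw [pB_sp, sp_apply, sp_apply]
    rw [h4] at h1
    have h5 := eps_mul h2 h1
    have h6 : aeval x (b * pB C) = aeval x b * aeval x (pB C) := map_mul _ _ _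
    have h7 : aeval x (b ^ 2 * (C 0 0 * C 1 1) + pB C ^ 2 * c - 4 * c * (C 0 0 * C 1 1)) =
        (aeval x b) ^ 2 * (aeval x (C 0 0) * aeval x (C 1 1)) + (aeval x (pB C)) ^ 2 * (aeval x c) -
          4 * (aeval x c) * (aeval x (C 0 0) * aeval x (C 1 1)) := by
      simp only [map_sub, map_add, map_mul, map_pow, map_ofNat]
    rw [h6, h7, ← h5]
    ring
  · simp only [if_neg h]
    ring

lemma map_tr {R R' : Type} [CommRing R] [CommRing R'] (f : R →+* R')
    (B C : Matrix (Fin a) (Fin a) R) :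
    (Bᵀ * C * B).map f = (B.map f)ᵀ * C.map f * B.map f := by
  rw [Matrix.map_mul, Matrix.map_mul, Matrix.transpose_map]

/-- an integral change of variables -/
lemma TT_tr (S : Finset (MvPolynomial (Fin m) ℤ)) (g b c : MvPolynomial (Fin m) ℤ)
    (C : Matrix (Fin a) (Fin a) (MvPolynomial (Fin m) ℤ)) (B B' : Matrix (Fin a) (Fin a) ℤ)
    (h : B * B' = 1) (h' : B' * B = 1) (n : ℕ) :
    TT S g b c ((B.map (Int.castRingHom (MvPolynomial (Fin m) ℤ)))ᵀ * C *
      B.map (Int.castRingHom (MvPolynomial (Fin m) ℤ))) n = TT S g b c C n := by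
  unfold TT
  refine Finset.sum_congr rfl fun x _ => ?_
  have h1 : sp x ((B.map (Int.castRingHom (MvPolynomial (Fin m) ℤ)))ᵀ * C *
      B.map (Int.castRingHom (MvPolynomial (Fin m) ℤ))) =
      (B.map (Int.castRingHom (FF n)))ᵀ * sp x C * B.map (Int.castRingHom (FF n)) := by
    unfold sp
    rw [map_tr]
    have h2 : (B.map (Int.castRingHom (MvPolynomial (Fin m) ℤ))).map
        (aeval x : MvPolynomial (Fin m) ℤ →ₐ[ℤ] FF n).toRingHom =
        B.map (Int.castRingHom (FF n)) := by
      ext i j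
      simp
    rw [h2]
  have h3 : B.map (Int.castRingHom (FF n)) * B'.map (Int.castRingHom (FF n)) = 1 := by
    rw [← Matrix.map_mul, h]
    exact Matrix.map_one _ (map_zero _) (map_one _)
  have h4 : B'.map (Int.castRingHom (FF n)) * B.map (Int.castRingHom (FF n)) = 1 := by
    rw [← Matrix.map_mul, h']
    exact Matrix.map_one _ (map_zero _) (map_one _)
  rw [h1, NQ_tr _ _ _ h3 h4]

/-- the discriminant of one of the planes -/
noncomputable def dp (C : Matrix (Fin a) (Fin a) (MvPolynomial (Fin m) ℤ)) (i j l : Fin a) :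
    MvPolynomial (Fin m) ℤ := dsc C (Pi.single i 1) (sv i j l)

lemma bl_map {R R' : Type} [CommRing R] [CommRing R'] (f : R →+* R')
    (C : Matrix (Fin a) (Fin a) R) (v w : Fin a → R) :
    f (bl C v w) = bl (C.map f) (f ∘ v) (f ∘ w) := by
  rw [bl_eq, bl_eq]
  simp

lemma single_map {R R' : Type} [CommRing R] [CommRing R'] (f : R →+* R') (i : Fin a) :
    f ∘ (Pi.single i 1 : Fin a → R) = Pi.single i 1 := by
  funext x
  rw [Function.comp_apply, Pi.single_apply, Pi.single_apply]
  split_ifs <;> simp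

lemma sv_map {R R' : Type} [CommRing R] [CommRing R'] (f : R →+* R') (i j l : Fin a) :
    f ∘ (sv i j l : Fin a → R) = sv i j l := by
  unfold sv
  funext x
  rw [Function.comp_apply, Pi.add_apply, Pi.add_apply, map_add, ← Function.comp_apply (f := f),
    single_map]
  congr 1
  split_ifs
  · simp
  · rw [← Function.comp_apply (f := f), single_map]

lemma dsc_map {R R' : Type} [CommRing R] [CommRing R'] (f : R →+* R')
    (C : Matrix (Fin a) (Fin a) R) (v w : Fin a → R) :
    f (dsc C v w) = dsc (C.map f) (f ∘ v) (f ∘ w) := by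
  unfold dsc
  rw [map_sub, map_pow, map_add, map_mul, map_mul, map_ofNat, bl_map, bl_map, bl_map, bl_map]

lemma dp_sp {n : ℕ} (x : Fin m → FF n) (C : Matrix (Fin a) (Fin a) (MvPolynomial (Fin m) ℤ))
    (i j l : Fin a) : aeval x (dp C i j l) = dsc (sp x C) (Pi.single i 1) (sv i j l) := by
  have := dsc_map (aeval x : MvPolynomial (Fin m) ℤ →ₐ[ℤ] FF n).toRingHom C (Pi.single i 1)
    (sv i j l)
  rw [single_map, sv_map] at this
  exact this

lemma dc_dp (C : Matrix (Fin (a + 2)) (Fin (a + 2)) (MvPolynomial (Fin m) ℤ))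
    {i j l : Fin (a + 2)} {B : Matrix (Fin (a + 2)) (Fin (a + 2)) ℤ}
    (h0 : (fun x => B x 0) = Pi.single i 1) (h1 : (fun x => B x 1) = sv i j l) :
    dc ((B.map (Int.castRingHom (MvPolynomial (Fin m) ℤ)))ᵀ * C *
      B.map (Int.castRingHom (MvPolynomial (Fin m) ℤ))) = dp C i j l := by
  rw [dc_tr]
  have e0 : (fun x => B.map (Int.castRingHom (MvPolynomial (Fin m) ℤ)) x 0) =
      Int.castRingHom (MvPolynomial (Fin m) ℤ) ∘ (fun x => B x 0) := rfl
  have e1 : (fun x => B.map (Int.castRingHom (MvPolynomial (Fin m) ℤ)) x 1) =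
      Int.castRingHom (MvPolynomial (Fin m) ℤ) ∘ (fun x => B x 1) := rfl
  rw [e0, e1, h0, h1, single_map, sv_map]
  rfl

/-- all planes degenerate -/
lemma TT_base (S : Finset (MvPolynomial (Fin m) ℤ)) [DecidableEq (MvPolynomial (Fin m) ℤ)]
    (g b c : MvPolynomial (Fin m) ℤ)
    (C : Matrix (Fin (a + 1)) (Fin (a + 1)) (MvPolynomial (Fin m) ℤ))
    (hS : ∀ i j l, i ≠ j → dp C i j l ∈ S) {n : ℕ} (hn : IsPrimePow n) :
    TT S g b c C n = (n : ℤ) ^ a * T0 S g b c n +
      ((n : ℤ) ^ (a + 1) - (n : ℤ) ^ a) * T0 (S ∪ univ.image fun i => C i i) g b c n := by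
  classical
  unfold TT T0
  rw [Finset.mul_sum, Finset.mul_sum, ← Finset.sum_add_distrib]
  refine Finset.sum_congr rfl fun x _ => ?_
  by_cases h : Loc S g x
  · have h1 : ∀ i j l, i ≠ j → dsc (sp x C) (Pi.single i 1)
        (Pi.single j 1 + if l = i ∨ l = j then 0 else Pi.single l 1) = 0 := by
      intro i j l hij
      have h2 := h.1 _ (hS i j l hij)
      rw [dp_sp] at h2
      exact h2
    have h3 := NQ_deg (sp x C) h1
    rw [card_FF hn] at h3
    rw [h3]
    have h4 : Loc (S ∪ univ.image fun i => C i i) g x ↔ ∀ i, sp x C i i = 0 := by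
      constructor
      · intro h5 i
        exact h5.1 _ (Finset.mem_union_right _ (Finset.mem_image_of_mem _ (Finset.mem_univ i)))
      · intro h5
        refine ⟨fun f hf => ?_, h.2⟩
        rcases Finset.mem_union.mp hf with hf | hf
        · exact h.1 f hf
        · obtain ⟨i, -, rfl⟩ := Finset.mem_image.mp hf
          exact h5 i
    by_cases h5 : ∀ i, sp x C i i = 0
    · rw [if_pos h, if_pos h5, if_pos h, if_pos (h4.mpr h5)]
      ring
    · rw [if_pos h, if_neg h5, if_pos h, if_neg (fun h6 => h5 (h4.mp h6))]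
      ring
  · have h1 : ¬ Loc (S ∪ univ.image fun i => C i i) g x := fun h1 =>
      h ⟨fun f hf => h1.1 f (Finset.mem_union_left _ hf), h1.2⟩
    rw [if_neg h, if_neg h, if_neg h1]
    ring

/-! ### Double covers of affine space -/

/-- `P` holds for the double covers `w ^ 2 + b(x) * w + c(x) = 0` of affine `m`-space -/
def Dbl (P : (ℕ → ℤ) → Prop) (m : ℕ) : Prop :=
  ∀ b c : MvPolynomial (Fin m) ℤ, P (fun n => (Nat.card {p : (Fin m → FF n) × FF n //
    p.2 ^ 2 + aeval p.1 b * p.2 + aeval p.1 c = 0} : ℤ))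

lemma NQ_zero {n : ℕ} (C : Matrix (Fin 0) (Fin 0) (FF n)) : NQ C = 1 := by
  unfold NQ
  rw [Nat.card_eq_one_iff_unique]
  exact ⟨⟨fun u v => Subtype.ext (Subsingleton.elim _ _)⟩,
    ⟨⟨fun i => i.elim0, by rw [qv_eq]; simp⟩⟩⟩

lemma T0_eq_TT (S : Finset (MvPolynomial (Fin m) ℤ)) (g b c : MvPolynomial (Fin m) ℤ)
    (C : Matrix (Fin 0) (Fin 0) (MvPolynomial (Fin m) ℤ)) (n : ℕ) :
    T0 S g b c n = TT S g b c C n := by
  unfold T0 TT
  refine Finset.sum_congr rfl fun x _ => ?_
  rw [NQ_zero]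
  simp

lemma T0_split (S : Finset (MvPolynomial (Fin m) ℤ)) [DecidableEq (MvPolynomial (Fin m) ℤ)]
    (g b c d : MvPolynomial (Fin m) ℤ) (n : ℕ) :
    T0 S g b c n = T0 (insert d S) g b c n + T0 S (g * d) b c n := by
  rw [T0_eq_TT S g b c 0, T0_eq_TT (insert d S) g b c 0, T0_eq_TT S (g * d) b c 0]
  exact TT_split S g b c d 0 n

lemma eps_scale {k : Type} [Field k] (b c f : k) [Decidable (f = 0)] :
    eps (b * f) (c * f ^ 2) = if f = 0 then 0 else eps b c := by
  split_ifs with hf
  · subst hf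
    unfold eps
    have : Nat.card {w : k // w ^ 2 + b * 0 * w + c * 0 ^ 2 = 0} = 1 := by
      rw [Nat.card_eq_one_iff_unique]
      refine ⟨⟨fun u v => ?_⟩, ⟨⟨0, by ring⟩⟩⟩
      have key : ∀ w : {w : k // w ^ 2 + b * 0 * w + c * 0 ^ 2 = 0}, w.1 = 0 := fun w => by
        have h : w.1 ^ 2 = 0 := by linear_combination w.2
        exact pow_eq_zero_iff two_ne_zero |>.mp h
      exact Subtype.ext ((key u).trans (key v).symm)
    rw [this]
    norm_num
  · refine (eps_affine (m := 0) hf fun w => ?_).symm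
    have h1 : (f * w + 0) ^ 2 + b * f * (f * w + 0) + c * f ^ 2 =
        f ^ 2 * (w ^ 2 + b * w + c) := by ring
    rw [h1, mul_eq_zero, or_iff_right (pow_ne_zero 2 hf)]

lemma T0_empty (g b c : MvPolynomial (Fin m) ℤ) (n : ℕ) :
    T0 ∅ g b c n = T0 ∅ 1 (b * g) (c * g ^ 2) n := by
  classical
  unfold T0
  refine Finset.sum_congr rfl fun x _ => ?_
  have h1 : Loc (∅ : Finset (MvPolynomial (Fin m) ℤ)) 1 x :=
    ⟨fun f hf => (Finset.notMem_empty f hf).elim, by rw [map_one]; exact one_ne_zero⟩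
  rw [if_pos h1, map_mul, map_mul, map_pow, eps_scale]
  by_cases hg : aeval x g = 0
  · rw [if_pos hg, if_neg (fun h : Loc ∅ g x => h.2 hg)]
  · rw [if_neg hg, if_pos (show Loc ∅ g x from
      ⟨fun f hf => (Finset.notMem_empty f hf).elim, hg⟩)]

lemma T0_one (b c : MvPolynomial (Fin m) ℤ) {n : ℕ} (hn : IsPrimePow n) :
    T0 ∅ 1 b c n = (Nat.card {p : (Fin m → FF n) × FF n //
      p.2 ^ 2 + aeval p.1 b * p.2 + aeval p.1 c = 0} : ℤ) - (n : ℤ) ^ m := by
  classical
  rw [card_fib (fun (x : Fin m → FF n) (w : FF n) => w ^ 2 + aeval x b * w + aeval x c = 0),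
    Nat.cast_sum]
  have h2 : (n : ℤ) ^ m = ∑ _x : Fin m → FF n, (1 : ℤ) := by
    rw [Finset.sum_const, Finset.card_univ, Fintype.card_fun, fcard_FF hn, Fintype.card_fin]
    simp
  rw [h2, ← Finset.sum_sub_distrib]
  unfold T0
  refine Finset.sum_congr rfl fun x _ => ?_
  have h1 : Loc (∅ : Finset (MvPolynomial (Fin m) ℤ)) 1 x :=
    ⟨fun f hf => (Finset.notMem_empty f hf).elim, by rw [map_one]; exact one_ne_zero⟩
  rw [if_pos h1]
  rfl

variable {P : (ℕ → ℤ) → Prop} (hP : Cls P)

include hP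

lemma dbl_of_hyp (hH : Hyp P (m + 1)) : Dbl P m := by
  intro b c
  set r : MvPolynomial (Fin m) ℤ →ₐ[ℤ] MvPolynomial (Fin (m + 1)) ℤ := rename Fin.succ with hr
  refine hP.congr (hH (X 0 ^ 2 + r b * X 0 + r c)) fun n hn => ?_
  congr 1
  refine Nat.card_congr (Equiv.subtypeEquiv
    ((Fin.consEquiv fun _ => FF n).symm.trans (Equiv.prodComm _ _)) fun x => ?_)
  obtain ⟨⟨w, y⟩, rfl⟩ := (Fin.consEquiv fun _ : Fin (m + 1) => FF n).surjective x
  have h1 : ((Fin.consEquiv fun _ : Fin (m + 1) => FF n).symm.trans (Equiv.prodComm _ _))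
      ((Fin.consEquiv fun _ : Fin (m + 1) => FF n) (w, y)) = (y, w) := by
    rw [Equiv.trans_apply, Equiv.symm_apply_apply]
    rfl
  rw [h1]
  have hren : ∀ f : MvPolynomial (Fin m) ℤ,
      aeval (Fin.cons w y : Fin (m + 1) → FF n) (r f) = aeval y f := by
    intro f
    rw [hr, aeval_rename]
    congr 1
  show aeval (Fin.cons w y : Fin (m + 1) → FF n) (X 0 ^ 2 + r b * X 0 + r c) = 0 ↔
    w ^ 2 + aeval y b * w + aeval y c = 0
  simp only [hren, map_add, map_mul, map_pow, aeval_X, Fin.cons_zero]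

lemma dbl_pred (hD : Dbl P (m + 1)) : Dbl P m := by
  intro b c
  set r : MvPolynomial (Fin m) ℤ →ₐ[ℤ] MvPolynomial (Fin (m + 1)) ℤ := rename Fin.succ with hr
  have hg : Growth (fun n => ((Nat.card {p : (Fin m → FF n) × FF n //
      p.2 ^ 2 + aeval p.1 b * p.2 + aeval p.1 c = 0} : ℤ) : ℂ)) := by
    refine (growth_card (Fin m ⊕ Unit) fun n x =>
      (x (Sum.inr ())) ^ 2 + aeval (fun i => x (Sum.inl i)) b * x (Sum.inr ()) +
        aeval (fun i => x (Sum.inl i)) c = 0).congr fun n _ => ?_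
    have : Nat.card {x : Fin m ⊕ Unit → FF n // (x (Sum.inr ())) ^ 2 +
        aeval (fun i => x (Sum.inl i)) b * x (Sum.inr ()) + aeval (fun i => x (Sum.inl i)) c = 0} =
        Nat.card {p : (Fin m → FF n) × FF n //
      p.2 ^ 2 + aeval p.1 b * p.2 + aeval p.1 c = 0} :=
      Nat.card_congr
        { toFun := fun x => ⟨(fun i => x.1 (Sum.inl i), x.1 (Sum.inr ())), x.2⟩
          invFun := fun p => ⟨Sum.elim p.1.1 (fun _ => p.1.2), p.2⟩
          left_inv := fun x => by
            apply Subtype.ext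
            funext i
            rcases i with i | i
            · rfl
            · rfl
          right_inv := fun p => rfl }
    rw [this]
  refine hP.of_pow_mul hg 1 (hP.congr (hD (r b) (r c)) fun n hn => ?_)
  have hren : ∀ (w : FF n) (y : Fin m → FF n) (f : MvPolynomial (Fin m) ℤ),
      aeval (Fin.cons w y : Fin (m + 1) → FF n) (r f) = aeval y f := by
    intro w y f
    rw [hr, aeval_rename]
    congr 1
  have e : {p : (Fin (m + 1) → FF n) × FF n //
      p.2 ^ 2 + aeval p.1 (r b) * p.2 + aeval p.1 (r c) = 0} ≃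
      FF n × {p : (Fin m → FF n) × FF n // p.2 ^ 2 + aeval p.1 b * p.2 + aeval p.1 c = 0} :=
    { toFun := fun p => (p.1.1 0, ⟨(Fin.tail p.1.1, p.1.2), by
        have := p.2
        rw [← Fin.cons_self_tail p.1.1, hren, hren] at this
        exact this⟩)
      invFun := fun z => ⟨(Fin.cons z.1 z.2.1.1, z.2.1.2), by
        show z.2.1.2 ^ 2 + aeval (Fin.cons z.1 z.2.1.1 : Fin (m + 1) → FF n) (r b) * z.2.1.2 +
          aeval (Fin.cons z.1 z.2.1.1 : Fin (m + 1) → FF n) (r c) = 0
        rw [hren, hren]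
        exact z.2.2⟩
      left_inv := fun p => by
        apply Subtype.ext
        apply Prod.ext
        · exact Fin.cons_self_tail p.1.1
        · rfl
      right_inv := fun z => by
        apply Prod.ext
        · rfl
        · apply Subtype.ext
          apply Prod.ext
          · funext i; rfl
          · rfl }
  rw [Nat.card_congr e, Nat.card_prod, card_FF hn]
  push_cast
  ring

lemma hyp_of_dbl (hD : Dbl P m) : Hyp P m := by
  intro f
  refine hP.congr (hP.sub (hP.mul_poly (hP.pow m) (Polynomial.C 2)) (hD f 0)) fun n hn => ?_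
  classical
  rw [card_fib (fun (x : Fin m → FF n) (w : FF n) => w ^ 2 + aeval x f * w + aeval x 0 = 0),
    Nat.card_eq_fintype_card, Fintype.card_subtype, Finset.card_filter, Nat.cast_sum,
    Nat.cast_sum]
  have h2 : (n : ℤ) ^ m = ∑ _x : Fin m → FF n, (1 : ℤ) := by
    rw [Finset.sum_const, Finset.card_univ, Fintype.card_fun, fcard_FF hn, Fintype.card_fin]
    simp
  rw [h2, Finset.mul_sum, ← Finset.sum_sub_distrib]
  refine Finset.sum_congr rfl fun x _ => ?_
  rw [map_zero]
  by_cases hf : aeval x f = 0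
  · rw [if_pos hf]
    have := eps_scale (0 : FF n) 0 0
    rw [if_pos rfl] at this
    unfold eps at this
    rw [hf]
    have h3 : Nat.card {w : FF n // w ^ 2 + 0 * w + 0 = 0} =
        Nat.card {w : FF n // w ^ 2 + 0 * 0 * w + 0 * 0 ^ 2 = 0} :=
      Nat.card_congr (Equiv.subtypeEquivRight fun w => by simp)
    rw [h3]
    simp only [Polynomial.eval_C]
    push_cast
    linarith
  · rw [if_neg hf]
    have h3 : Nat.card {w : FF n // w ^ 2 + aeval x f * w + 0 = 0} = 2 :=
      root_card (w := 0) (by simpa using hf) (by ring)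
    rw [h3]
    simp

lemma T0_mem (hD : Dbl P m) (S : Finset (MvPolynomial (Fin m) ℤ)) :
    ∀ g b c : MvPolynomial (Fin m) ℤ, P (T0 S g b c) := by
  classical
  induction S using Finset.induction_on with
  | empty =>
    intro g b c
    refine hP.congr (hP.sub (hD (b * g) (c * g ^ 2)) (hP.pow m)) fun n hn => ?_
    rw [T0_empty, T0_one _ _ hn]
  | insert d S hd ih =>
    intro g b c
    refine hP.congr (hP.sub (ih g b c) (ih (g * d) b c)) fun n hn => ?_
    rw [T0_split S g b c d n]
    ring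

theorem TT_mem (hH : Dbl P m) : ∀ (a : ℕ)
    (C : Matrix (Fin a) (Fin a) (MvPolynomial (Fin m) ℤ)) (S : Finset (MvPolynomial (Fin m) ℤ))
    (g b c : MvPolynomial (Fin m) ℤ), (b ^ 2 - 4 * c) ∣ g → P (TT S g b c C) := by
  classical
  intro a
  induction a using Nat.strong_induction_on with
  | _ a ih =>
  intro C S g b c hg
  match a, C, ih with
  | 0, C, _ =>
    refine hP.congr (T0_mem hP hH S g b c) fun n hn => ?_
    unfold T0 TT
    refine Finset.sum_congr rfl fun x _ => ?_
    have h1 : NQ (sp x C) = 1 := by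
      unfold NQ
      rw [Nat.card_eq_one_iff_unique]
      exact ⟨⟨fun u v => Subtype.ext (Subsingleton.elim _ _)⟩,
        ⟨⟨fun i => i.elim0, by rw [qv_eq]; simp⟩⟩⟩
    rw [h1]
    simp
  | 1, C, _ =>
    refine hP.congr (hP.add (hP.pow_mul (T0_mem hP hH S g b c) 0)
      (hP.mul_poly (T0_mem hP hH (S ∪ univ.image fun i => C i i) g b c)
        (Polynomial.X ^ (0 + 1) - Polynomial.X ^ 0))) fun n hn => ?_
    rw [TT_base (a := 0) S g b c C (fun i j l hij => (hij (Fin.ext (by omega))).elim) hn]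
    simp
  | a + 2, C, ih =>
    have claim : ∀ (R : Finset (Fin (a + 2) × Fin (a + 2) × Fin (a + 2)))
        (S : Finset (MvPolynomial (Fin m) ℤ)) (g : MvPolynomial (Fin m) ℤ), (b ^ 2 - 4 * c) ∣ g →
        (∀ t, t ∉ R → t.1 ≠ t.2.1 → dp C t.1 t.2.1 t.2.2 ∈ S) → P (TT S g b c C) := by
      intro R
      induction R using Finset.induction_on with
      | empty =>
        intro S g _ h
        refine hP.congr (hP.add (hP.pow_mul (T0_mem hP hH S g b c) (a + 1))
          (hP.mul_poly (T0_mem hP hH (S ∪ univ.image fun i => C i i) g b c)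
            (Polynomial.X ^ (a + 1 + 1) - Polynomial.X ^ (a + 1)))) fun n hn => ?_
        rw [TT_base (a := a + 1) S g b c C
          (fun i j l hij => h (i, j, l) (Finset.notMem_empty _) hij) hn]
        simp
      | insert t R ht ihR =>
        intro S g hg h
        by_cases ht2 : t.1 = t.2.1
        · refine ihR S g hg fun t' ht' hne => h t' ?_ hne
          rw [Finset.mem_insert, not_or]
          refine ⟨?_, ht'⟩
          rintro rfl
          exact hne ht2
        · obtain ⟨B, B', hB, hB', h0, h1⟩ := exists_unim t.2.2 ht2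
          set d := dp C t.1 t.2.1 t.2.2 with hd
          set CB := (B.map (Int.castRingHom (MvPolynomial (Fin m) ℤ)))ᵀ * C *
            B.map (Int.castRingHom (MvPolynomial (Fin m) ℤ)) with hCB
          have hdc : dc CB = d := dc_dp C h0 h1
          have hg1 : (b ^ 2 - 4 * c) ∣ g * d := hg.mul_right d
          have hg2 : dc CB ∣ g * d := by rw [hdc]; exact dvd_mul_left d g
          have hg3 : ((b * pB CB) ^ 2 - 4 * (b ^ 2 * (CB 0 0 * CB 1 1) + pB CB ^ 2 * c -
              4 * c * (CB 0 0 * CB 1 1))) ∣ g * d := by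
            have h2 : (b * pB CB) ^ 2 - 4 * (b ^ 2 * (CB 0 0 * CB 1 1) + pB CB ^ 2 * c -
              4 * c * (CB 0 0 * CB 1 1)) = (b ^ 2 - 4 * c) * dc CB := by unfold dc; ring
            rw [h2, hdc]
            exact mul_dvd_mul_right hg d
          refine hP.congr (hP.add (ihR (insert d S) g hg fun t' ht' hne => ?_)
            (hP.add (hP.sub (hP.pow_mul (T0_mem hP hH S (g * d) b c) (a + 1))
              (hP.pow_mul (T0_mem hP hH S (g * d) (b * pB CB)
                (b ^ 2 * (CB 0 0 * CB 1 1) + pB CB ^ 2 * c - 4 * c * (CB 0 0 * CB 1 1))) a))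
              (hP.id_mul (ih a (by omega) (red CB) S (g * d) (b * pB CB)
                (b ^ 2 * (CB 0 0 * CB 1 1) + pB CB ^ 2 * c - 4 * c * (CB 0 0 * CB 1 1)) hg3))))
              fun n hn => ?_
          · by_cases hte : t' = t
            · rw [hte]; exact Finset.mem_insert_self _ _
            · exact Finset.mem_insert_of_mem (h t' (by
                rw [Finset.mem_insert, not_or]; exact ⟨hte, ht'⟩) hne)
          · rw [TT_split S g b c d C n, ← TT_tr S (g * d) b c C B B' hB hB' n, ← hCB,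
              TT_plane S (g * d) b c CB hg1 hg2 hn]
    exact claim univ S g hg fun t ht => (ht (Finset.mem_univ t)).elim

end

end Pool.Agent.Helper14.HQ
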