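import Pool.Agent.Helper81.HI.Form

/-!
# Nondegenerate binary quadratic forms over a finite field, in every characteristic
-/

set_option autoImplicit false

open Finset
open Pool.Agent.Helper81.HI

namespace Pool.Agent.Helper14.HQ

section

variable {k : Type} [Field k] [Finite k]

omit [Finite k] in
/-- the number of roots of `w ^ 2 + b * w + c`, minus one -/
noncomputable def eps (b c : k) : ℤ := (Nat.card {w : k // w ^ 2 + b * w + c = 0} : ℤ) - 1

omit [Finite k] in
lemma root_card {b c w : k} (h : b ^ 2 - 4 * c ≠ 0) (hw : w ^ 2 + b * w + c = 0) :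
    Nat.card {w : k // w ^ 2 + b * w + c = 0} = 2 := by
  rw [Nat.card_eq_two_iff]
  refine ⟨⟨w, hw⟩, ⟨-b - w, by linear_combination hw⟩, ?_, ?_⟩
  · intro h1
    have h2 : w = -b - w := congrArg Subtype.val h1
    apply h
    linear_combination (-4) * hw + (2 * w + b) * h2
  · ext ⟨z, hz⟩
    simp only [Set.mem_insert_iff, Set.mem_singleton_iff, Subtype.mk.injEq, Set.mem_univ, iff_true]
    have h1 : (z - w) * (z - (-b - w)) = 0 := by linear_combination hz - hw
    rcases mul_eq_zero.mp h1 with h2 | h2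
    · left; exact sub_eq_zero.mp h2
    · right; exact sub_eq_zero.mp h2

omit [Finite k] in
lemma eps_of_root {b c w : k} (h : b ^ 2 - 4 * c ≠ 0) (hw : w ^ 2 + b * w + c = 0) :
    eps b c = 1 := by
  unfold eps
  rw [root_card h hw]; norm_num

omit [Finite k] in
lemma eps_of_not {b c : k} (hw : ∀ w : k, w ^ 2 + b * w + c ≠ 0) :
    eps b c = -1 := by
  unfold eps
  have : IsEmpty {w : k // w ^ 2 + b * w + c = 0} := ⟨fun w => hw w.1 w.2⟩
  rw [Nat.card_of_isEmpty]; norm_num

omit [Finite k] in
lemma eps_cases {b c : k} (h : b ^ 2 - 4 * c ≠ 0) : eps b c = 1 ∨ eps b c = -1 := by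
  by_cases hw : ∃ w : k, w ^ 2 + b * w + c = 0
  · obtain ⟨w, hw⟩ := hw
    left; exact eps_of_root h hw
  · push Not at hw
    right; exact eps_of_not hw

omit [Finite k] in
lemma eps_sq {b c : k} (h : b ^ 2 - 4 * c ≠ 0) : eps b c * eps b c = 1 := by
  rcases eps_cases h with h | h <;> rw [h] <;> norm_num

omit [Finite k] in
/-- an affine change of variable -/
lemma eps_affine {b c b' c' l m : k} (hl : l ≠ 0)
    (h : ∀ w : k, (l * w + m) ^ 2 + b' * (l * w + m) + c' = 0 ↔ w ^ 2 + b * w + c = 0) :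
    eps b c = eps b' c' := by
  unfold eps
  congr 2
  refine Nat.card_congr
    { toFun := fun w => ⟨l * w.1 + m, (h w.1).mpr w.2⟩
      invFun := fun z => ⟨(z.1 - m) / l, (h _).mp (by
        have : l * ((z.1 - m) / l) + m = z.1 := by field_simp; ring
        rw [this]; exact z.2)⟩
      left_inv := fun w => by
        apply Subtype.ext
        show (l * w.1 + m - m) / l = w.1
        field_simp
        ring
      right_inv := fun z => by
        apply Subtype.ext
        show l * ((z.1 - m) / l) + m = z.1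
        field_simp; ring }

omit [Finite k] in
lemma eps_mul_root {b c b' c' w : k} (h : b ^ 2 - 4 * c ≠ 0) (hw : w ^ 2 + b * w + c = 0) :
    eps b' c' = eps (b * b') (b ^ 2 * c' + b' ^ 2 * c - 4 * c * c') := by
  have hl : -(2 * w + b) ≠ 0 := by
    intro h1
    apply h
    have h2 : 2 * w + b = 0 := neg_eq_zero.mp h1
    linear_combination (-4) * hw + (2 * w + b) * h2
  refine eps_affine (m := (-b - w) * b') hl fun z => ?_
  have h1 : (-(2 * w + b) * z + (-b - w) * b') ^ 2 +
      (b * b') * (-(2 * w + b) * z + (-b - w) * b') +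
      (b ^ 2 * c' + b' ^ 2 * c - 4 * c * c') =
      (2 * w + b) ^ 2 * (z ^ 2 + b' * z + c') := by
    linear_combination (b' ^ 2 - 4 * c') * hw
  rw [h1, mul_eq_zero, or_iff_right (pow_ne_zero 2 (neg_ne_zero.mp hl))]

/-- the index two argument -/
lemma eps_mul_not {b c b' c' : k} (h : b ^ 2 - 4 * c ≠ 0) (h' : b' ^ 2 - 4 * c' ≠ 0)
    (hw : ∀ w : k, w ^ 2 + b * w + c ≠ 0) (hw' : ∀ w : k, w ^ 2 + b' * w + c' ≠ 0) :
    ∃ w : k, w ^ 2 + (b * b') * w + (b ^ 2 * c' + b' ^ 2 * c - 4 * c * c') = 0 := by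
  classical
  have : Fintype k := Fintype.ofFinite k
  by_cases h2 : (2 : k) = 0
  · -- characteristic two
    have hb : b ≠ 0 := fun hb => h (by rw [hb, show (4 : k) = 2 * 2 by norm_num, h2]; ring)
    have hb' : b' ≠ 0 := fun hb => h' (by rw [hb, show (4 : k) = 2 * 2 by norm_num, h2]; ring)
    have hadd : ∀ x : k, x + x = 0 := fun x => by rw [← two_mul, h2, zero_mul]
    have hneg : ∀ x : k, -x = x := fun x => by
      rw [neg_eq_iff_add_eq_zero]; exact hadd x
    let ph : k →+ k :=
      { toFun := fun z => z ^ 2 + z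
        map_zero' := by ring
        map_add' := fun x y => by linear_combination (x * y) * h2 }
    have hker : Nat.card ph.ker = 2 := by
      rw [Nat.card_eq_two_iff]
      refine ⟨⟨0, map_zero ph⟩, ⟨1, by
        show (1 : k) ^ 2 + 1 = 0
        linear_combination h2⟩, ?_, ?_⟩
      · intro h1
        exact zero_ne_one (congrArg Subtype.val h1)
      · ext ⟨z, hz⟩
        simp only [Set.mem_insert_iff, Set.mem_singleton_iff, Subtype.mk.injEq, Set.mem_univ,
          iff_true]
        have h1 : z * (z + 1) = 0 := by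
          have : z ^ 2 + z = 0 := hz
          linear_combination this
        rcases mul_eq_zero.mp h1 with h3 | h3
        · left; first | exact h3 | exact Subtype.ext h3
        · right
          have := eq_neg_of_add_eq_zero_left h3
          rw [this, hneg]
    have hidx : ph.range.index = 2 := by
      have h1 : Nat.card ph.range * ph.range.index = Nat.card k := by
        exact AddSubgroup.card_mul_index ph.range
      have h3 : Nat.card ph.ker * ph.ker.index = Nat.card k := AddSubgroup.card_mul_index ph.ker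
      have h4 : ph.ker.index = Nat.card ph.range := AddSubgroup.index_ker ph
      rw [hker, h4, mul_comm] at h3
      rw [← h3] at h1
      exact Nat.eq_of_mul_eq_mul_left (Nat.card_pos) h1
    have hn : ∀ {b c : k}, b ≠ 0 → ((∃ w : k, w ^ 2 + b * w + c = 0) ↔ c / b ^ 2 ∈ ph.range) := by
      intro b c hb
      constructor
      · rintro ⟨w, hw⟩
        refine ⟨w / b, ?_⟩
        show (w / b) ^ 2 + w / b = c / b ^ 2
        have : w ^ 2 + b * w = c := by
          rw [← hneg c]; linear_combination hw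
        rw [← this]
        field_simp
      · rintro ⟨z, hz⟩
        have hz' : z ^ 2 + z = c / b ^ 2 := hz
        refine ⟨b * z, ?_⟩
        have h1 : c = b ^ 2 * (z ^ 2 + z) := by rw [hz']; field_simp
        rw [h1]
        linear_combination (b ^ 2 * (z ^ 2 + z)) * h2
    have h1 : c / b ^ 2 ∉ ph.range := fun hc => by
      obtain ⟨w, hw1⟩ := (hn hb).mpr hc
      exact hw w hw1
    have h1' : c' / b' ^ 2 ∉ ph.range := fun hc => by
      obtain ⟨w, hw1⟩ := (hn hb').mpr hc
      exact hw' w hw1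
    rw [hn (mul_ne_zero hb hb')]
    have h3 : (b ^ 2 * c' + b' ^ 2 * c - 4 * c * c') / (b * b') ^ 2 =
        c / b ^ 2 + c' / b' ^ 2 := by
      rw [show (4 : k) = 2 * 2 by norm_num, h2]
      field_simp
      ring
    rw [h3, AddSubgroup.add_mem_iff_of_index_two hidx]
    tauto
  · -- odd characteristic
    have hchar : ringChar k ≠ 2 := by
      intro hc
      apply h2
      have := ringChar.Nat.cast_ringChar (R := k)
      rw [hc] at this
      exact_mod_cast this
    have hn : ∀ {b c : k}, (∃ w : k, w ^ 2 + b * w + c = 0) ↔ IsSquare (b ^ 2 - 4 * c) := by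
      intro b c
      constructor
      · rintro ⟨w, hw⟩
        exact ⟨2 * w + b, by linear_combination (-4) * hw⟩
      · rintro ⟨z, hz⟩
        refine ⟨(z - b) / 2, ?_⟩
        field_simp
        linear_combination -hz
    have hs : ¬ IsSquare (b ^ 2 - 4 * c) := fun hc => by
      obtain ⟨w, hw1⟩ := hn.mpr hc
      exact hw w hw1
    have hs' : ¬ IsSquare (b' ^ 2 - 4 * c') := fun hc => by
      obtain ⟨w, hw1⟩ := hn.mpr hc
      exact hw' w hw1
    rw [hn]
    have h3 : (b * b') ^ 2 - 4 * (b ^ 2 * c' + b' ^ 2 * c - 4 * c * c') =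
        (b ^ 2 - 4 * c) * (b' ^ 2 - 4 * c') := by ring
    rw [h3]
    rw [← quadraticChar_one_iff_isSquare (mul_ne_zero h h'), map_mul,
      quadraticChar_neg_one_iff_not_isSquare.mpr hs,
      quadraticChar_neg_one_iff_not_isSquare.mpr hs']
    norm_num

omit [Finite k] in
lemma disc_mul (b c b' c' : k) :
    (b * b') ^ 2 - 4 * (b ^ 2 * c' + b' ^ 2 * c - 4 * c * c') =
        (b ^ 2 - 4 * c) * (b' ^ 2 - 4 * c') := by ring

lemma eps_mul {b c b' c' : k} (h : b ^ 2 - 4 * c ≠ 0) (h' : b' ^ 2 - 4 * c' ≠ 0) :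
    eps b c * eps b' c' = eps (b * b') (b ^ 2 * c' + b' ^ 2 * c - 4 * c * c') := by
  by_cases hw : ∃ w : k, w ^ 2 + b * w + c = 0
  · obtain ⟨w, hw⟩ := hw
    rw [eps_of_root h hw, one_mul, ← eps_mul_root h hw]
  · push Not at hw
    by_cases hw' : ∃ w : k, w ^ 2 + b' * w + c' = 0
    · obtain ⟨w, hw'⟩ := hw'
      rw [eps_of_root h' hw', mul_one, eps_mul_root h' hw', mul_comm b' b]
      congr 1; ring
    · push Not at hw'
      obtain ⟨z, hz⟩ := eps_mul_not h h' hw hw'
      rw [eps_of_not hw, eps_of_not hw', eps_of_root _ hz]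
      · norm_num
      · rw [disc_mul]; exact mul_ne_zero h h'

end

section

variable {k : Type} [Field k] [Fintype k]

omit [Fintype k] in
lemma card_lin2 {a b : k} (h : a ≠ 0 ∨ b ≠ 0) (c : k) :
    Nat.card {p : k × k // a * p.1 + b * p.2 + c = 0} = Nat.card k := by
  rcases h with h | h
  · refine Nat.card_congr
      { toFun := fun p => p.1.2
        invFun := fun y => ⟨(-(b * y + c) / a, y), by field_simp; ring⟩
        left_inv := fun p => ?_
        right_inv := fun y => rfl }
    apply Subtype.ext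
    apply Prod.ext
    · show -(b * p.1.2 + c) / a = p.1.1
      rw [div_eq_iff h]
      linear_combination -p.2
    · rfl
  · refine Nat.card_congr
      { toFun := fun p => p.1.1
        invFun := fun x => ⟨(x, -(a * x + c) / b), by field_simp; ring⟩
        left_inv := fun p => ?_
        right_inv := fun y => rfl }
    apply Subtype.ext
    apply Prod.ext
    · rfl
    · show -(a * p.1.1 + c) / b = p.1.2
      rw [div_eq_iff h]
      linear_combination -p.2

/-- the number of representations of `-s` by a binary form -/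
noncomputable def rep (a b c s : k) : ℕ :=
  Nat.card {p : k × k // a * p.1 ^ 2 + b * (p.1 * p.2) + c * p.2 ^ 2 + s = 0}

lemma sum_rep (a b c : k) : ∑ s : k, rep a b c s = Nat.card k ^ 2 := by
  unfold rep
  rw [← card_fib (fun (s : k) (p : k × k) =>
    a * p.1 ^ 2 + b * (p.1 * p.2) + c * p.2 ^ 2 + s = 0)]
  have e : {p : k × (k × k) // a * p.2.1 ^ 2 + b * (p.2.1 * p.2.2) + c * p.2.2 ^ 2 + p.1 = 0} ≃
      k × k :=
    { toFun := fun p => p.1.2
      invFun := fun z => ⟨(-(a * z.1 ^ 2 + b * (z.1 * z.2) + c * z.2 ^ 2), z), by ring⟩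
      left_inv := fun p => by
        apply Subtype.ext
        apply Prod.ext
        · show -(a * p.1.2.1 ^ 2 + b * (p.1.2.1 * p.1.2.2) + c * p.1.2.2 ^ 2) = p.1.1
          linear_combination -p.2
        · rfl
      right_inv := fun z => rfl }
  rw [Nat.card_congr e, Nat.card_prod, sq]

lemma sum_rep_sq {a b c : k} (h : b ^ 2 - 4 * (a * c) ≠ 0) :
    ∑ s : k, rep a b c s ^ 2 = Nat.card k ^ 2 + (Nat.card k ^ 2 - 1) * Nat.card k := by
  classical
  have h1 : ∑ s : k, rep a b c s ^ 2 = ∑ s : k, Nat.card {z : (k × k) × (k × k) //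
      a * z.1.1 ^ 2 + b * (z.1.1 * z.1.2) + c * z.1.2 ^ 2 + s = 0 ∧
      a * z.2.1 ^ 2 + b * (z.2.1 * z.2.2) + c * z.2.2 ^ 2 + s = 0} := by
    refine Finset.sum_congr rfl fun s _ => ?_
    unfold rep
    rw [sq, ← Nat.card_prod]
    exact Nat.card_congr
      { toFun := fun p => ⟨(p.1.1, p.2.1), p.1.2, p.2.2⟩
        invFun := fun z => (⟨z.1.1, z.2.1⟩, ⟨z.1.2, z.2.2⟩)
        left_inv := fun p => rfl
        right_inv := fun z => rfl }
  rw [h1, ← card_fib (fun (s : k) (z : (k × k) × (k × k)) =>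
      a * z.1.1 ^ 2 + b * (z.1.1 * z.1.2) + c * z.1.2 ^ 2 + s = 0 ∧
      a * z.2.1 ^ 2 + b * (z.2.1 * z.2.2) + c * z.2.2 ^ 2 + s = 0)]
  have e : {p : k × ((k × k) × (k × k)) //
      a * p.2.1.1 ^ 2 + b * (p.2.1.1 * p.2.1.2) + c * p.2.1.2 ^ 2 + p.1 = 0 ∧
      a * p.2.2.1 ^ 2 + b * (p.2.2.1 * p.2.2.2) + c * p.2.2.2 ^ 2 + p.1 = 0} ≃
      {p : (k × k) × (k × k) // (2 * a * p.1.1 + b * p.1.2) * p.2.1 +
        (b * p.1.1 + 2 * c * p.1.2) * p.2.2 +
        (a * p.1.1 ^ 2 + b * (p.1.1 * p.1.2) + c * p.1.2 ^ 2) = 0} :=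
    { toFun := fun p => ⟨((p.1.2.1.1 - p.1.2.2.1, p.1.2.1.2 - p.1.2.2.2), p.1.2.2), by
        linear_combination p.2.1 - p.2.2⟩
      invFun := fun p => ⟨(-(a * p.1.2.1 ^ 2 + b * (p.1.2.1 * p.1.2.2) + c * p.1.2.2 ^ 2),
        ((p.1.1.1 + p.1.2.1, p.1.1.2 + p.1.2.2), p.1.2)), by
          refine ⟨?_, by ring⟩
          linear_combination p.2⟩
      left_inv := fun p => by
        apply Subtype.ext
        apply Prod.ext
        · show -(a * p.1.2.2.1 ^ 2 + b * (p.1.2.2.1 * p.1.2.2.2) + c * p.1.2.2.2 ^ 2) = p.1.1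
          linear_combination -p.2.2
        · apply Prod.ext
          · apply Prod.ext
            · show p.1.2.1.1 - p.1.2.2.1 + p.1.2.2.1 = p.1.2.1.1
              ring
            · show p.1.2.1.2 - p.1.2.2.2 + p.1.2.2.2 = p.1.2.1.2
              ring
          · rfl
      right_inv := fun p => by
        apply Subtype.ext
        apply Prod.ext
        · apply Prod.ext
          · show p.1.1.1 + p.1.2.1 - p.1.2.1 = p.1.1.1
            ring
          · show p.1.1.2 + p.1.2.2 - p.1.2.2 = p.1.1.2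
            ring
        · rfl }
  rw [Nat.card_congr e, card_fib (fun (d p : k × k) => (2 * a * d.1 + b * d.2) * p.1 +
        (b * d.1 + 2 * c * d.2) * p.2 + (a * d.1 ^ 2 + b * (d.1 * d.2) + c * d.2 ^ 2) = 0)]
  rw [← Finset.add_sum_erase univ _ (Finset.mem_univ (0 : k × k))]
  congr 1
  · have : Nat.card {p : k × k // (2 * a * (0 : k × k).1 + b * (0 : k × k).2) * p.1 +
        (b * (0 : k × k).1 + 2 * c * (0 : k × k).2) * p.2 +
        (a * (0 : k × k).1 ^ 2 + b * ((0 : k × k).1 * (0 : k × k).2) +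
          c * (0 : k × k).2 ^ 2) = 0} = Nat.card (k × k) :=
      Nat.card_congr (Equiv.subtypeUnivEquiv fun p => by simp)
    rw [this, Nat.card_prod, sq]
  · rw [Finset.sum_congr rfl (g := fun _ => Nat.card k), Finset.sum_const, smul_eq_mul,
      Finset.card_erase_of_mem (Finset.mem_univ _), Finset.card_univ, Fintype.card_prod, sq,
      Nat.card_eq_fintype_card]
    intro d hd
    refine card_lin2 ?_ _
    by_contra hc
    push Not at hc
    apply Finset.ne_of_mem_erase hd
    have h2 : (b ^ 2 - 4 * (a * c)) * d.1 = 0 := by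
      linear_combination (-2 * c) * hc.1 + b * hc.2
    have h3 : (b ^ 2 - 4 * (a * c)) * d.2 = 0 := by
      linear_combination b * hc.1 + (-2 * a) * hc.2
    apply Prod.ext
    · exact (mul_eq_zero.mp h2).resolve_left h
    · exact (mul_eq_zero.mp h3).resolve_left h

lemma rep_zero {a b c : k} (h : b ^ 2 - 4 * (a * c) ≠ 0) :
    (rep a b c 0 : ℤ) = Nat.card k + (Nat.card k - 1) * eps b (a * c) := by
  classical
  have e : {p : k × k // a * p.1 ^ 2 + b * (p.1 * p.2) + c * p.2 ^ 2 + 0 = 0} ≃
      {p : k × k // a * p.2 ^ 2 + b * (p.2 * p.1) + c * p.1 ^ 2 = 0} :=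
    { toFun := fun p => ⟨(p.1.2, p.1.1), by linear_combination p.2⟩
      invFun := fun p => ⟨(p.1.2, p.1.1), by linear_combination p.2⟩
      left_inv := fun p => rfl
      right_inv := fun p => rfl }
  unfold rep
  rw [Nat.card_congr e, card_fib (fun v u : k => a * u ^ 2 + b * (u * v) + c * v ^ 2 = 0),
    ← Finset.add_sum_erase univ _ (Finset.mem_univ (0 : k))]
  by_cases ha : a = 0
  · subst ha
    have hb : b ≠ 0 := fun hb => h (by rw [hb]; ring)
    have h0 : Nat.card {u : k // 0 * u ^ 2 + b * (u * 0) + c * 0 ^ 2 = 0} = Nat.card k :=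
      Nat.card_congr (Equiv.subtypeUnivEquiv fun p => by simp)
    have h1 : ∀ v ∈ univ.erase (0 : k),
        Nat.card {u : k // 0 * u ^ 2 + b * (u * v) + c * v ^ 2 = 0} = 1 := by
      intro v hv
      have hv' : v ≠ 0 := Finset.ne_of_mem_erase hv
      rw [Nat.card_eq_one_iff_unique]
      refine ⟨⟨fun x y => ?_⟩, ⟨-(c * v) / b, by field_simp; ring⟩⟩
      apply Subtype.ext
      have h2 : (b * v) * (x.1 - y.1) = 0 := by linear_combination x.2 - y.2
      exact sub_eq_zero.mp ((mul_eq_zero.mp h2).resolve_left (mul_ne_zero hb hv'))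
    rw [h0, Finset.sum_congr rfl h1, Finset.sum_const, smul_eq_mul, mul_one,
      Finset.card_erase_of_mem (Finset.mem_univ _), Finset.card_univ]
    have h2 : eps b (0 * c) = 1 := eps_of_root (w := 0) (by
      rw [zero_mul, mul_zero, sub_zero]; exact pow_ne_zero 2 hb) (by ring)
    rw [h2, Nat.card_eq_fintype_card, Nat.cast_add, Nat.cast_sub Fintype.card_pos]
    push_cast; ring
  · have h0 : Nat.card {u : k // a * u ^ 2 + b * (u * 0) + c * 0 ^ 2 = 0} = 1 := by
      rw [Nat.card_eq_one_iff_unique]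
      refine ⟨⟨fun x y => ?_⟩, ⟨0, by ring⟩⟩
      have hx : ∀ z : {u : k // a * u ^ 2 + b * (u * 0) + c * 0 ^ 2 = 0}, z.1 = 0 := by
        intro z
        have h2 : a * z.1 ^ 2 = 0 := by linear_combination z.2
        exact pow_eq_zero_iff (two_ne_zero) |>.mp ((mul_eq_zero.mp h2).resolve_left ha)
      exact Subtype.ext ((hx x).trans (hx y).symm)
    have h1 : ∀ v ∈ univ.erase (0 : k),
        Nat.card {u : k // a * u ^ 2 + b * (u * v) + c * v ^ 2 = 0} =
        Nat.card {w : k // w ^ 2 + b * w + a * c = 0} := by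
      intro v hv
      have hv' : v ≠ 0 := Finset.ne_of_mem_erase hv
      exact Nat.card_congr
        { toFun := fun u => ⟨a * u.1 / v, by
            field_simp
            linear_combination a * u.2⟩
          invFun := fun w => ⟨w.1 * v / a, by
            have := w.2
            field_simp
            linear_combination v ^ 2 * this⟩
          left_inv := fun u => by
            apply Subtype.ext
            show a * u.1 / v * v / a = u.1
            field_simp
          right_inv := fun w => by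
            apply Subtype.ext
            show a * (w.1 * v / a) / v = w.1
            field_simp }
    rw [h0, Finset.sum_congr rfl h1, Finset.sum_const, smul_eq_mul,
      Finset.card_erase_of_mem (Finset.mem_univ _), Finset.card_univ]
    have h2 : (Nat.card {w : k // w ^ 2 + b * w + a * c = 0} : ℤ) = eps b (a * c) + 1 := by
      unfold eps; ring
    rw [Nat.card_eq_fintype_card (α := k), Nat.cast_add, Nat.cast_mul,
      Nat.cast_sub Fintype.card_pos, h2]
    push_cast; ring

/-- the second moment argument -/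
theorem rep_eq {a b c : k} (h : b ^ 2 - 4 * (a * c) ≠ 0) {s : k} (hs : s ≠ 0) :
    (rep a b c s : ℤ) = Nat.card k - eps b (a * c) := by
  classical
  set q : ℤ := (Nat.card k : ℤ) with hq
  set ε := eps b (a * c) with hε
  have he : ε * ε = 1 := eps_sq h
  have h0 : (rep a b c 0 : ℤ) = q + (q - 1) * ε := rep_zero h
  have h1 : ∑ s : k, (rep a b c s : ℤ) = q ^ 2 := by
    have := sum_rep a b c
    rw [hq]; exact_mod_cast this
  have hq1 : 1 ≤ Nat.card k ^ 2 := Nat.one_le_pow _ _ Nat.card_pos
  have h2 : ∑ s : k, (rep a b c s : ℤ) ^ 2 = q ^ 2 + (q ^ 2 - 1) * q := by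
    have := congrArg (fun n : ℕ => (n : ℤ)) (sum_rep_sq h)
    rw [Nat.cast_sum, Nat.cast_add, Nat.cast_mul, Nat.cast_sub hq1] at this
    push_cast at this
    rw [this]
  have h3 : ∑ s ∈ univ.erase (0 : k), ((rep a b c s : ℤ) - (q - ε)) ^ 2 = 0 := by
    have h4 : ∀ s : k, ((rep a b c s : ℤ) - (q - ε)) ^ 2 =
        (rep a b c s : ℤ) ^ 2 - 2 * (q - ε) * (rep a b c s : ℤ) + (q - ε) ^ 2 := fun s => by ring
    rw [Finset.sum_congr rfl fun s _ => h4 s, Finset.sum_add_distrib, Finset.sum_sub_distrib,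
      ← Finset.mul_sum, Finset.sum_const, Finset.card_erase_of_mem (Finset.mem_univ _),
      Finset.card_univ, nsmul_eq_mul, Nat.cast_sub Fintype.card_pos]
    have h5 := Finset.add_sum_erase univ (fun s => (rep a b c s : ℤ)) (Finset.mem_univ (0 : k))
    have h6 := Finset.add_sum_erase univ (fun s => (rep a b c s : ℤ) ^ 2)
      (Finset.mem_univ (0 : k))
    beta_reduce at h5 h6
    rw [h0, h1] at h5
    rw [h0, h2] at h6
    have h7 : (Fintype.card k : ℤ) = q := by rw [hq, Nat.card_eq_fintype_card]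
    rw [h7]
    push_cast
    linear_combination h6 - 2 * (q - ε) * h5 + (-q) * (q - 1) * he
  have h8 := (Finset.sum_eq_zero_iff_of_nonneg fun s _ => sq_nonneg _).mp h3 s
    (Finset.mem_erase.mpr ⟨hs, Finset.mem_univ _⟩)
  have h9 := pow_eq_zero_iff (two_ne_zero) |>.mp h8
  linarith

/-- the number of zeros of a nondegenerate binary form plus a constant -/
theorem rep_val {a b c : k} (h : b ^ 2 - 4 * (a * c) ≠ 0) (s : k) [Decidable (s = 0)] :
    (rep a b c s : ℤ) = Nat.card k - eps b (a * c) +
      if s = 0 then Nat.card k * eps b (a * c) else 0 := by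
  split_ifs with hs
  · rw [hs, rep_zero h]; ring
  · rw [rep_eq h hs]; ring

end

end Pool.Agent.Helper14.HQ
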