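import Pool.Agent.Helper14.HQ.Fam

/-!
# Systems of quadratic equations
-/

set_option autoImplicit false

open Finset MvPolynomial Matrix
open Pool.Agent.Helper29.Zeta Pool.Agent.Helper50.KR
open Pool.Agent.Helper81.HI

namespace Pool.Agent.Helper14.HQ

/-- the value of a quadratic form with integer coefficients -/
def qz {k : Type} [Field k] {a : ℕ} (Q : Fin a → Fin a → ℤ) (y : Fin a → k) : k :=
  ∑ i, ∑ j, (Q i j : k) * (y i * y j)

/-- the zeros of a pencil of quadratic forms, with the parameters -/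
noncomputable def Fc {m a : ℕ} (Q : Fin m → Fin a → Fin a → ℤ) (n : ℕ) : ℤ :=
  Nat.card {p : (Fin m → FF n) × (Fin a → FF n) // ∑ l, p.1 l * qz (Q l) p.2 = 0}

/-- the pencil with first parameter `1` -/
noncomputable def fam {m a : ℕ} (Q : Fin (m + 1) → Fin a → Fin a → ℤ) :
    Matrix (Fin a) (Fin a) (MvPolynomial (Fin m) ℤ) :=
  Matrix.of fun i j => MvPolynomial.C (Q 0 i j) + ∑ l : Fin m, X l * MvPolynomial.C (Q l.succ i j)

lemma qv_fam {m a : ℕ} (Q : Fin (m + 1) → Fin a → Fin a → ℤ) {n : ℕ} (x : Fin m → FF n)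
    (y : Fin a → FF n) : qv (sp x (fam Q)) y = qz (Q 0) y + ∑ l, x l * qz (Q l.succ) y := by
  rw [qv_eq]
  unfold qz
  simp only [Finset.mul_sum]
  rw [Finset.sum_comm (s := (univ : Finset (Fin m))), ← Finset.sum_add_distrib]
  refine Finset.sum_congr rfl fun i _ => ?_
  rw [Finset.sum_comm (s := (univ : Finset (Fin m))), ← Finset.sum_add_distrib]
  refine Finset.sum_congr rfl fun j _ => ?_
  rw [sp_apply]
  unfold fam
  rw [Matrix.of_apply, map_add, map_sum, add_mul, Finset.sum_mul]
  congr 1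
  · simp
  · refine Finset.sum_congr rfl fun l _ => ?_
    rw [map_mul, aeval_X]
    simp
    ring

lemma Fc_succ {m a : ℕ} (Q : Fin (m + 1) → Fin a → Fin a → ℤ) {n : ℕ} (hn : IsPrimePow n) :
    Fc Q n = Fc (fun l => Q l.succ) n + ((n : ℤ) - 1) * TT ∅ 1 1 0 (fam Q) n := by
  classical
  have e : {p : (Fin (m + 1) → FF n) × (Fin a → FF n) // ∑ l, p.1 l * qz (Q l) p.2 = 0} ≃
      {p : FF n × ((Fin m → FF n) × (Fin a → FF n)) //
        p.1 * qz (Q 0) p.2.2 + ∑ l, p.2.1 l * qz (Q l.succ) p.2.2 = 0} :=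
    { toFun := fun p => ⟨(p.1.1 0, (Fin.tail p.1.1, p.1.2)), by
        have := p.2
        rw [Fin.sum_univ_succ] at this
        exact this⟩
      invFun := fun p => ⟨(Fin.cons p.1.1 p.1.2.1, p.1.2.2), by
        have := p.2
        rw [Fin.sum_univ_succ]
        simpa using this⟩
      left_inv := fun p => by
        apply Subtype.ext
        apply Prod.ext
        · exact Fin.cons_self_tail p.1.1
        · rfl
      right_inv := fun p => by
        apply Subtype.ext
        apply Prod.ext
        · rfl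
        · apply Prod.ext
          · funext i; rfl
          · rfl }
  unfold Fc
  rw [Nat.card_congr e, card_fib (fun (t : FF n) (p : (Fin m → FF n) × (Fin a → FF n)) =>
    t * qz (Q 0) p.2 + ∑ l, p.1 l * qz (Q l.succ) p.2 = 0),
    ← Finset.add_sum_erase univ _ (Finset.mem_univ (0 : FF n)), Nat.cast_add]
  congr 1
  · congr 1
    exact Nat.card_congr (Equiv.subtypeEquivRight fun p => by rw [zero_mul, zero_add])
  · have h1 : ∀ t ∈ univ.erase (0 : FF n),
        Nat.card {p : (Fin m → FF n) × (Fin a → FF n) //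
          t * qz (Q 0) p.2 + ∑ l, p.1 l * qz (Q l.succ) p.2 = 0} =
        Nat.card {p : (Fin m → FF n) × (Fin a → FF n) // qv (sp p.1 (fam Q)) p.2 = 0} := by
      intro t ht
      have ht0 : t ≠ 0 := Finset.ne_of_mem_erase ht
      have key : ∀ (x : Fin m → FF n) (y : Fin a → FF n),
          t * qz (Q 0) y + ∑ l, (t * x l) * qz (Q l.succ) y = t * qv (sp x (fam Q)) y := by
        intro x y
        rw [qv_fam, mul_add, Finset.mul_sum]
        congr 1
        exact Finset.sum_congr rfl fun l _ => by ring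
      exact Nat.card_congr
        { toFun := fun p => ⟨(fun l => t⁻¹ * p.1.1 l, p.1.2), by
            have h2 := key (fun l => t⁻¹ * p.1.1 l) p.1.2
            have h3 : ∀ l, t * (t⁻¹ * p.1.1 l) = p.1.1 l := fun l => by
              rw [← mul_assoc, mul_inv_cancel₀ ht0, one_mul]
            simp only [h3] at h2
            rw [p.2] at h2
            exact (mul_eq_zero.mp h2.symm).resolve_left ht0⟩
          invFun := fun p => ⟨(fun l => t * p.1.1 l, p.1.2), by
            have h2 := key p.1.1 p.1.2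
            rw [p.2, mul_zero] at h2
            exact h2⟩
          left_inv := fun p => by
            apply Subtype.ext
            apply Prod.ext
            · funext l
              show t * (t⁻¹ * p.1.1 l) = p.1.1 l
              rw [← mul_assoc, mul_inv_cancel₀ ht0, one_mul]
            · rfl
          right_inv := fun p => by
            apply Subtype.ext
            apply Prod.ext
            · funext l
              show t⁻¹ * (t * p.1.1 l) = p.1.1 l
              rw [← mul_assoc, inv_mul_cancel₀ ht0, one_mul]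
            · rfl }
    rw [Finset.sum_congr rfl h1, Finset.sum_const, smul_eq_mul,
      Finset.card_erase_of_mem (Finset.mem_univ _), Finset.card_univ, fcard_FF hn,
      Nat.cast_mul, Nat.cast_sub hn.one_lt.le, card_fib (fun (x : Fin m → FF n)
        (y : Fin a → FF n) => qv (sp x (fam Q)) y = 0), Nat.cast_sum, Nat.cast_one]
    congr 1
    unfold TT
    refine Finset.sum_congr rfl fun x _ => ?_
    have h2 : Loc (∅ : Finset (MvPolynomial (Fin m) ℤ)) 1 x :=
      ⟨fun f hf => (Finset.notMem_empty f hf).elim, by rw [map_one]; exact one_ne_zero⟩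
    rw [if_pos h2]
    have h3 : eps (aeval x (1 : MvPolynomial (Fin m) ℤ)) (aeval x (0 : MvPolynomial (Fin m) ℤ)) =
        1 := by
      rw [map_one, map_zero]
      exact eps_of_root (w := 0) (by simp) (by ring)
    rw [h3, one_mul]
    rfl

variable {P : (ℕ → ℤ) → Prop} (hP : Cls P)

include hP

lemma Fc_zero (a : ℕ) (Q : Fin 0 → Fin a → Fin a → ℤ) : P (Fc Q) := by
  refine hP.congr (hP.pow a) fun n hn => ?_
  unfold Fc
  have : Nat.card {p : (Fin 0 → FF n) × (Fin a → FF n) // ∑ l, p.1 l * qz (Q l) p.2 = 0} =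
      Nat.card ((Fin 0 → FF n) × (Fin a → FF n)) :=
    Nat.card_congr (Equiv.subtypeUnivEquiv fun p => by simp)
  rw [this, Nat.card_prod, Nat.card_fun, Nat.card_fun, card_FF hn]
  simp

lemma Fc_mem : ∀ {m : ℕ} (_ : Dbl P m) (a : ℕ) (Q : Fin (m + 1) → Fin a → Fin a → ℤ),
    P (Fc Q) := by
  intro m
  induction m with
  | zero =>
    intro hD a Q
    refine hP.congr (hP.add (Fc_zero hP a fun l => Q l.succ)
      (hP.pred_mul (TT_mem hP hD a (fam Q) ∅ 1 1 0 (by simp)))) fun n hn => ?_
    exact (Fc_succ Q hn).symm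
  | succ m ih =>
    intro hD a Q
    refine hP.congr (hP.add (ih (dbl_pred hP hD) a fun l => Q l.succ)
      (hP.pred_mul (TT_mem hP hD a (fam Q) ∅ 1 1 0 (by simp)))) fun n hn => ?_
    exact (Fc_succ Q hn).symm

omit hP in
/-- `P` holds for the systems of `m` quadratic forms -/
def QS (P : (ℕ → ℤ) → Prop) (m : ℕ) : Prop :=
  ∀ (a : ℕ) (Q : Fin m → Fin a → Fin a → ℤ),
    P (fun n => (Nat.card {y : Fin a → FF n // ∀ l, ∑ i, ∑ j, (Q l i j : FF n) * (y i * y j) = 0} :
      ℤ))

/-- Every system of `m + 1` quadratic equations, in any number of unknowns, is covered by the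
double covers of affine `m`-space. -/
theorem quad_of_dbl {m : ℕ} (hH : Dbl P m) (a : ℕ) (Q : Fin (m + 1) → Fin a → Fin a → ℤ) :
    P (fun n => (Nat.card {y : Fin a → FF n // ∀ l, ∑ i, ∑ j, (Q l i j : FF n) * (y i * y j) = 0} :
      ℤ)) := by
  have hg : Growth (fun n => ((Nat.card {y : Fin a → FF n //
      ∀ l, ∑ i, ∑ j, (Q l i j : FF n) * (y i * y j) = 0} : ℤ) : ℂ)) :=
    growth_card (Fin a) fun n y => ∀ l, ∑ i, ∑ j, (Q l i j : FF n) * (y i * y j) = 0
  have hg2 : Growth (fun n => ((((n : ℤ) - 1) * (Nat.card {y : Fin a → FF n //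
      ∀ l, ∑ i, ∑ j, (Q l i j : FF n) * (y i * y j) = 0} : ℤ) : ℤ) : ℂ)) := by
    refine ((growth_eval (Polynomial.X - 1)).mul hg).congr fun n _ => ?_
    push_cast
    simp
  refine hP.of_pred_mul hg (hP.of_pow_mul hg2 (m + 1) ?_)
  refine hP.congr (hP.sub (hP.id_mul (Fc_mem hP hH a Q)) (hP.pow (m + 1 + a))) fun n hn => ?_
  have h := card_form (k := FF n) (α := Fin a → FF n) (I := Fin (m + 1))
    (fun y l => ∑ i, ∑ j, (Q l i j : FF n) * (y i * y j))
  rw [card_FF hn, Fintype.card_fin, Nat.card_fun, card_FF hn,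
    Nat.card_eq_fintype_card (α := Fin a), Fintype.card_fin] at h
  have h1 : Nat.card {p : (Fin a → FF n) × (Fin (m + 1) → FF n) //
      ∑ l, (∑ i, ∑ j, (Q l i j : FF n) * (p.1 i * p.1 j)) * p.2 l = 0} = Fc Q n := by
    unfold Fc
    congr 1
    refine Nat.card_congr (Equiv.subtypeEquiv (Equiv.prodComm _ _) fun p => Eq.congr_left ?_)
    exact Finset.sum_congr rfl fun l _ => mul_comm _ _
  rw [← h1, h, pow_add]
  push_cast
  ring

/-- Every system of `m + 1` quadratic equations, in any number of unknowns, is covered by the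
hypersurfaces in affine `m + 1`-space. -/
theorem quad_mem {m : ℕ} (hH : Hyp P (m + 1)) (a : ℕ) (Q : Fin (m + 1) → Fin a → Fin a → ℤ) :
    P (fun n => (Nat.card {y : Fin a → FF n // ∀ l, ∑ i, ∑ j, (Q l i j : FF n) * (y i * y j) = 0} :
      ℤ)) :=
  quad_of_dbl hP (dbl_of_hyp hP hH) a Q

end Pool.Agent.Helper14.HQ
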